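import Pool.Agent.H12R2.Sep.Defs

/-!
# Independent fair bits (helper988)
-/

namespace Pool.Agent.H988R5
open Finset H974

theorem C8_ok : Ok (fun _ : Edg => (1/2 : ℝ)) := fun _ => by norm_num

/-- an independent fair bit -/
theorem C8_bit {U : Finset Edg} {e : Edg} (he : e ∈ U) {A : Finset Edg → Prop}
    (hA : ∀ F, F ⊆ U → (A F ↔ A (F ∩ U.erase e))) (P : Prop) :
    Pr (fun _ => 1/2) U (fun F => A F ∧ (e ∈ F ↔ P)) = 1/2 * Pr (fun _ => 1/2) U A := by
  have h1 := Pr_indep (p := fun _ : Edg => (1/2 : ℝ)) (U := U) (S := U.erase e) (T := {e})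
    (Finset.erase_subset _ _) (by simpa using he)
    (by simp) (A := A) (B := fun F => (e ∈ F ↔ P)) hA
    (by intro F _; simp)
  rw [h1]
  have h2 : Pr (fun _ : Edg => (1/2 : ℝ)) U (fun F => (e ∈ F ↔ P)) = 1/2 := by
    rw [Pr_local (S' := {e}) (by simpa using he) (by intro F _; simp)]
    unfold Pr
    have h3 := Ex_insert (fun _ : Edg => (1/2 : ℝ)) (a := e) (S := ∅) (by simp)
      (fun F => ind (e ∈ F ↔ P))
    have h4 : insert e (∅ : Finset Edg) = {e} := by simp
    rw [h4] at h3
    rw [h3, Ex_empty, Ex_empty]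
    by_cases hP : P
    · rw [ind_of (by simp [hP]), ind_not_of (by simp [hP])]; norm_num
    · rw [ind_not_of (by simp [hP]), ind_of (by simp [hP])]; norm_num
  rw [h2]; ring

/-- opening an edge costs a factor `2` -/
theorem Pr_insert_le {U : Finset Edg} {e : Edg} (he : e ∈ U) (A : Finset Edg → Prop) :
    Pr (fun _ => 1/2) U (fun F => A (insert e F)) ≤ 2 * Pr (fun _ => 1/2) U A := by
  have h1 := C8_bit he (A := fun F => A (insert e F)) (by
    intro F hF
    have : insert e (F ∩ U.erase e) = insert e F := by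
      ext x
      simp only [Finset.mem_insert, Finset.mem_inter, Finset.mem_erase]
      constructor
      · rintro (h | ⟨h, -⟩)
        · exact Or.inl h
        · exact Or.inr h
      · rintro (h | h)
        · exact Or.inl h
        · by_cases hx : x = e
          · exact Or.inl hx
          · exact Or.inr ⟨h, hx, hF h⟩
    rw [this]) True
  have h2 : Pr (fun _ => 1/2) U (fun F => A (insert e F) ∧ (e ∈ F ↔ True)) ≤
      Pr (fun _ => 1/2) U A := by
    apply Pr_mono C8_ok
    rintro F - ⟨h3, h4⟩
    rwa [Finset.insert_eq_of_mem (h4.2 trivial)] at h3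
  linarith

end Pool.Agent.H988R5
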