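import Pool.Agent.H988R5.Defs

/-!
# Closing the four arms on the odd cylinder: integer arithmetic of the plaquettes (C6)
-/

namespace Pool.Agent.H988R5
open Equiv Finset Pool.Agent.H974R3 Pool.Agent.H988R3 Pool.Agent.H988R4
open H974 hiding SS
open H12S (Cn e0)

/-- membership in the vertical bar -/
theorem C6_mem_XV {b w N : ℕ} {x y : ℤ} {β : Bool} (h : ((x, y, β) : Edg) ∈ XV b w N) :
    ((-b ≤ x ∧ x ≤ b ∧ -b ≤ y ∧ y ≤ (b : ℤ)) ∨ (-w ≤ x ∧ x ≤ w ∧ -N ≤ y ∧ y ≤ (N : ℤ))) := by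
  unfold XV boxE at h
  rw [Finset.mem_union] at h
  cases β with
  | true =>
    rw [mem_RE_true, mem_RE_true] at h
    omega
  | false =>
    rw [mem_RE_false, mem_RE_false] at h
    omega

theorem C6_mem_XH {b w N : ℕ} {x y : ℤ} {β : Bool} (h : ((x, y, β) : Edg) ∈ XH b w N) :
    ((-b ≤ x ∧ x ≤ b ∧ -b ≤ y ∧ y ≤ (b : ℤ)) ∨ (-N ≤ x ∧ x ≤ N ∧ -w ≤ y ∧ y ≤ (w : ℤ))) := by
  unfold XH boxE at h
  rw [Finset.mem_union] at h
  cases β with
  | true =>
    rw [mem_RE_true, mem_RE_true] at h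
    omega
  | false =>
    rw [mem_RE_false, mem_RE_false] at h
    omega

/-- equality of plaquettes -/
theorem C6_pE_eq {n : ℕ} {ρ x y x' y' : ℤ} {β β' : Bool} (h0 : 1 ≤ x - y + ρ)
    (h0' : 1 ≤ x' - y' + ρ) (h : pE n ρ (x, y, β) = pE n ρ (x', y', β')) :
    (x - y - (if β then 0 else 1) = x' - y' - (if β' then 0 else 1)) ∧
      ∃ t : ℤ, x + y - (x' + y') = (2 * (n : ℤ) + 1) * t := by
  unfold pE at h
  simp only [Prod.mk.injEq] at h
  obtain ⟨h1, h2⟩ := h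
  constructor
  · cases β <;> cases β' <;> simp only [Bool.false_eq_true, if_false, if_true] at h1 ⊢ <;> omega
  · unfold izx at h2
    rw [Fin.mk.injEq] at h2
    push_cast at h2
    have e1 := Int.emod_nonneg (x + y + n) (show (2 * (n : ℤ) + 1) ≠ 0 by omega)
    have e2 := Int.emod_nonneg (x' + y' + n) (show (2 * (n : ℤ) + 1) ≠ 0 by omega)
    have e3 : (x + y + n) % (2 * (n : ℤ) + 1) = (x' + y' + n) % (2 * (n : ℤ) + 1) := by omega
    have e4 := Int.emod_eq_emod_iff_emod_sub_eq_zero.1 e3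
    obtain ⟨t, ht⟩ := Int.dvd_of_emod_eq_zero e4
    exact ⟨t, by linarith⟩

/-- the difference of the plaquettes in the plane -/
theorem C6_main {b w n N M : ℕ} {ρ : ℤ} (h : Lv b w n N M ρ) {x y x' y' : ℤ} {β β' : Bool}
    (he : ((x, y, β) : Edg) ∈ XV b w N ∪ XH b w N)
    (he' : ((x', y', β') : Edg) ∈ XV b w N ∪ XH b w N)
    (hπ : pE n ρ (x, y, β) = pE n ρ (x', y', β')) :
    (x - y - (if β then 0 else 1) = x' - y' - (if β' then 0 else 1)) ∧
      (x + y - (x' + y') = 0 ∨ x + y - (x' + y') = 2 * (n : ℤ) + 1 ∨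
        x + y - (x' + y') = - (2 * (n : ℤ) + 1)) := by
  have hb := h.b2
  have hbn := h.bn
  have hN := h.hN
  have hlo := h.lo
  have hhi := h.hi
  have hwb := h.wb
  have k1 : (-b ≤ x ∧ x ≤ b ∧ -N ≤ y ∧ y ≤ (N : ℤ)) ∨ (-N ≤ x ∧ x ≤ N ∧ -b ≤ y ∧ y ≤ (b : ℤ)) := by
    rcases Finset.mem_union.1 he with h1 | h1
    · have := C6_mem_XV h1
      omega
    · have := C6_mem_XH h1
      omega
  have k2 : (-b ≤ x' ∧ x' ≤ b ∧ -N ≤ y' ∧ y' ≤ (N : ℤ)) ∨
      (-N ≤ x' ∧ x' ≤ N ∧ -b ≤ y' ∧ y' ≤ (b : ℤ)) := by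
    rcases Finset.mem_union.1 he' with h1 | h1
    · have := C6_mem_XV h1
      omega
    · have := C6_mem_XH h1
      omega
  obtain ⟨h1, t, ht⟩ := C6_pE_eq (by omega) (by omega) hπ
  refine ⟨h1, ?_⟩
  have ht1 : t ≤ 1 := by
    by_contra hcon
    have : (2 * (n : ℤ) + 1) * 2 ≤ (2 * (n : ℤ) + 1) * t :=
      mul_le_mul_of_nonneg_left (by omega) (by omega)
    omega
  have ht2 : -1 ≤ t := by
    by_contra hcon
    have : (2 * (n : ℤ) + 1) * t ≤ (2 * (n : ℤ) + 1) * (-2) :=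
      mul_le_mul_of_nonneg_left (by omega) (by omega)
    omega
  have ht3 : t = 0 ∨ t = 1 ∨ t = -1 := by omega
  rcases ht3 with rfl | rfl | rfl <;> omega

theorem geo_mem {b w n N M : ℕ} {ρ : ℤ} (h : Lv b w n N M ρ) :
    ∀ e ∈ XV b w N ∪ XH b w N, pE n ρ e ∈ LamP n M := by
  rintro ⟨x, y, β⟩ he
  have hb := h.b2
  have hbn := h.bn
  have hN := h.hN
  have hlo := h.lo
  have hhi := h.hi
  have hwb := h.wb
  have k1 : (-b ≤ x ∧ x ≤ b ∧ -N ≤ y ∧ y ≤ (N : ℤ)) ∨ (-N ≤ x ∧ x ≤ N ∧ -b ≤ y ∧ y ≤ (b : ℤ)) := by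
    rcases Finset.mem_union.1 he with h1 | h1
    · have := C6_mem_XV h1
      omega
    · have := C6_mem_XH h1
      omega
  unfold LamP pE
  rw [Finset.mem_product, Finset.mem_range]
  refine ⟨?_, Finset.mem_univ _⟩
  simp only
  cases β <;> simp only [Bool.false_eq_true, if_false, if_true] <;> omega

theorem C6_inj {b w n N M : ℕ} {ρ : ℤ} (h : Lv b w n N M ρ) (D : Finset Edg)
    (hD : (∀ x y β, ((x, y, β) : Edg) ∈ D → ((x, y, β) : Edg) ∈ XV b w N ∧ -b ≤ x ∧ x ≤ (b : ℤ)) ∨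
      (∀ x y β, ((x, y, β) : Edg) ∈ D → ((x, y, β) : Edg) ∈ XH b w N ∧ -b ≤ y ∧ y ≤ (b : ℤ))) :
    Set.InjOn (pE n ρ) ↑D := by
  rintro ⟨x, y, β⟩ he ⟨x', y', β'⟩ he' hπ
  rw [Finset.mem_coe] at he he'
  have hb := h.b2
  have hbn := h.bn
  have hN := h.hN
  have hwb := h.wb
  rcases hD with hD | hD
  · obtain ⟨a1, a2, a3⟩ := hD _ _ _ he
    obtain ⟨b1, b2, b3⟩ := hD _ _ _ he'
    obtain ⟨h1, h2⟩ := C6_main h (Finset.mem_union_left _ a1) (Finset.mem_union_left _ b1) hπ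
    cases β <;> cases β' <;> simp only [Bool.false_eq_true, if_false, if_true] at h1
    · have e1 : x = x' := by omega
      have e2 : y = y' := by omega
      rw [e1, e2]
    · exfalso; omega
    · exfalso; omega
    · have e1 : x = x' := by omega
      have e2 : y = y' := by omega
      rw [e1, e2]
  · obtain ⟨a1, a2, a3⟩ := hD _ _ _ he
    obtain ⟨b1, b2, b3⟩ := hD _ _ _ he'
    obtain ⟨h1, h2⟩ := C6_main h (Finset.mem_union_right _ a1) (Finset.mem_union_right _ b1) hπ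
    cases β <;> cases β' <;> simp only [Bool.false_eq_true, if_false, if_true] at h1
    · have e1 : x = x' := by omega
      have e2 : y = y' := by omega
      rw [e1, e2]
    · exfalso; omega
    · exfalso; omega
    · have e1 : x = x' := by omega
      have e2 : y = y' := by omega
      rw [e1, e2]

theorem geo_inj {b w n N M : ℕ} {ρ : ℤ} (h : Lv b w n N M ρ) :
    Set.InjOn (pE n ρ) ↑(DS b w N) ∧ Set.InjOn (pE n ρ) ↑(DN b w N) ∧
      Set.InjOn (pE n ρ) ↑(DE b w N) ∧ Set.InjOn (pE n ρ) ↑(DW b w N) := by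
  have hb := h.b2
  have hbn := h.bn
  have hN := h.hN
  have hwb := h.wb
  refine ⟨C6_inj h _ (Or.inl ?_), C6_inj h _ (Or.inl ?_), C6_inj h _ (Or.inr ?_),
    C6_inj h _ (Or.inr ?_)⟩
  · intro x y β he
    unfold DS boxE at he
    unfold XV boxE
    rw [Finset.mem_union] at he ⊢
    cases β with
    | true => rw [mem_RE_true, mem_RE_true] at *; omega
    | false => rw [mem_RE_false, mem_RE_false] at *; omega
  · intro x y β he
    unfold DN boxE at he
    unfold XV boxE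
    rw [Finset.mem_union] at he ⊢
    cases β with
    | true => rw [mem_RE_true, mem_RE_true] at *; omega
    | false => rw [mem_RE_false, mem_RE_false] at *; omega
  · intro x y β he
    unfold DE boxE at he
    unfold XH boxE
    rw [Finset.mem_union] at he ⊢
    cases β with
    | true => rw [mem_RE_true, mem_RE_true] at *; omega
    | false => rw [mem_RE_false, mem_RE_false] at *; omega
  · intro x y β he
    unfold DW boxE at he
    unfold XH boxE
    rw [Finset.mem_union] at he ⊢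
    cases β with
    | true => rw [mem_RE_true, mem_RE_true] at *; omega
    | false => rw [mem_RE_false, mem_RE_false] at *; omega

theorem C6_XV_x {b w N : ℕ} (hwb : w ≤ b) {x y : ℤ} {β : Bool}
    (h : ((x, y, β) : Edg) ∈ XV b w N) : -b ≤ x ∧ x ≤ (b : ℤ) := by
  have := C6_mem_XV h
  omega

theorem C6_XH_y {b w N : ℕ} (hwb : w ≤ b) {x y : ℤ} {β : Bool}
    (h : ((x, y, β) : Edg) ∈ XH b w N) : -b ≤ y ∧ y ≤ (b : ℤ) := by
  have := C6_mem_XH h
  omega

/-- plaquettes used twice: types differ and exactly one of the tubes is vertical -/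
theorem geo_col {b w n N M : ℕ} {ρ : ℤ} (h : Lv b w n N M ρ) {e e' : Edg}
    (he : e ∈ XV b w N ∪ XH b w N) (he' : e' ∈ XV b w N ∪ XH b w N) (hne : e ≠ e')
    (hπ : pE n ρ e = pE n ρ e') : e.2.2 ≠ e'.2.2 ∧
      ((e ∈ XV b w N \ boxE b ∧ e' ∈ XH b w N \ boxE b) ∨
        (e ∈ XH b w N \ boxE b ∧ e' ∈ XV b w N \ boxE b)) := by
  obtain ⟨x, y, β⟩ := e
  obtain ⟨x', y', β'⟩ := e'
  have hb := h.b2
  have hbn := h.bn
  have hN := h.hN
  have hwb := h.wb
  obtain ⟨h1, h2⟩ := C6_main h he he' hπ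
  have k1 : (-b ≤ x ∧ x ≤ b ∧ -N ≤ y ∧ y ≤ (N : ℤ)) ∨ (-N ≤ x ∧ x ≤ N ∧ -b ≤ y ∧ y ≤ (b : ℤ)) := by
    rcases Finset.mem_union.1 he with h1 | h1
    · have := C6_mem_XV h1
      omega
    · have := C6_mem_XH h1
      omega
  have k2 : (-b ≤ x' ∧ x' ≤ b ∧ -N ≤ y' ∧ y' ≤ (N : ℤ)) ∨
      (-N ≤ x' ∧ x' ≤ N ∧ -b ≤ y' ∧ y' ≤ (b : ℤ)) := by
    rcases Finset.mem_union.1 he' with h1 | h1
    · have := C6_mem_XV h1
      omega
    · have := C6_mem_XH h1
      omega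
  -- the types differ
  have htype : β ≠ β' := by
    rintro rfl
    apply hne
    have e1 : x = x' := by
      cases β <;> simp only [Bool.false_eq_true, if_false, if_true] at h1 <;> omega
    have e2 : y = y' := by
      cases β <;> simp only [Bool.false_eq_true, if_false, if_true] at h1 <;> omega
    rw [e1, e2]
  -- the distances are large
  have hdist : ((n : ℤ) ≤ x - x' ∧ (n : ℤ) ≤ y - y') ∨ ((n : ℤ) ≤ x' - x ∧ (n : ℤ) ≤ y' - y) := by
    cases β <;> cases β' <;> simp only [Bool.false_eq_true, if_false, if_true] at h1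
    · exact absurd rfl htype
    · omega
    · omega
    · exact absurd rfl htype
  refine ⟨htype, ?_⟩
  have hboxV : ∀ {x y : ℤ} {β : Bool}, ((x, y, β) : Edg) ∈ boxE b →
      ((x, y, β) : Edg) ∈ XV b w N := fun h => Finset.mem_union_left _ h
  have hboxH : ∀ {x y : ℤ} {β : Bool}, ((x, y, β) : Edg) ∈ boxE b →
      ((x, y, β) : Edg) ∈ XH b w N := fun h => Finset.mem_union_left _ h
  have hVV : ¬ (((x, y, β) : Edg) ∈ XV b w N ∧ ((x', y', β') : Edg) ∈ XV b w N) := by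
    rintro ⟨h3, h4⟩
    have h5 := C6_XV_x hwb h3
    have h6 := C6_XV_x hwb h4
    omega
  have hHH : ¬ (((x, y, β) : Edg) ∈ XH b w N ∧ ((x', y', β') : Edg) ∈ XH b w N) := by
    rintro ⟨h3, h4⟩
    have h5 := C6_XH_y hwb h3
    have h6 := C6_XH_y hwb h4
    omega
  rw [Finset.mem_sdiff, Finset.mem_sdiff, Finset.mem_sdiff, Finset.mem_sdiff]
  rcases Finset.mem_union.1 he with h3 | h3 <;> rcases Finset.mem_union.1 he' with h4 | h4
  · exact absurd ⟨h3, h4⟩ hVV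
  · exact Or.inl ⟨⟨h3, fun h5 => hHH ⟨hboxH h5, h4⟩⟩, ⟨h4, fun h5 => hVV ⟨h3, hboxV h5⟩⟩⟩
  · exact Or.inr ⟨⟨h3, fun h5 => hVV ⟨hboxV h5, h4⟩⟩, ⟨h4, fun h5 => hHH ⟨h3, hboxH h5⟩⟩⟩
  · exact absurd ⟨h3, h4⟩ hHH

end Pool.Agent.H988R5
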