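import Pool.Agent.H988R5.Defs

/-!
# Links of the universal cover read off from paths of the plane (task C2, helper207)
-/

namespace Pool.Agent.H988R5
open Equiv Finset Pool.Agent.H974R3 Pool.Agent.H988R3 Pool.Agent.H988R4
open H974 hiding SS
open H12S (Cn e0)

theorem C2_izx_add (m : ℕ) (j t : ℤ) : izx m (j + t * ((m : ℤ) + 1)) = izx m j := by
  apply izx_congr
  exact Int.add_mul_emod_self_right j t ((m : ℤ) + 1)

theorem CR_shift {m N : ℕ} {c : ℕ → Fin (m + 1) → Bool} {a a' : ℤ × ℕ} (h : CR m N c a a')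
    (t : ℤ) : CR m N c (a.1 + t * ((m:ℤ) + 1), a.2) (a'.1 + t * ((m:ℤ) + 1), a'.2) := by
  induction h with
  | rel x y hxy =>
    apply Relation.EqvGen.rel
    obtain ⟨j, r, hr, h⟩ := hxy
    refine ⟨j + t * ((m : ℤ) + 1), r, hr, ?_⟩
    rw [C2_izx_add]
    rcases h with ⟨h1, rfl, rfl⟩ | ⟨h1, rfl, rfl⟩
    · left
      refine ⟨h1, rfl, ?_⟩
      ext <;> simp
      ring
    · right
      refine ⟨h1, rfl, ?_⟩
      ext <;> simp
      ring
  | refl x => exact Relation.EqvGen.refl _
  | symm x y _ ih => exact Relation.EqvGen.symm _ _ ih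
  | trans x y z _ _ ih1 ih2 => exact Relation.EqvGen.trans _ _ _ ih1 ih2

theorem CR_sh {n N : ℕ} {c : ℕ → Fin (2 * n + 1) → Bool} {a a' : ℤ × ℕ}
    (h : CR (2 * n) N c a a') : CR (2 * n) N c (sh n a) (sh n a') := by
  have h' := CR_shift h 1
  have e : ∀ b : ℤ × ℕ, sh n b = (b.1 + 1 * (((2 * n : ℕ) : ℤ) + 1), b.2) := by
    intro b
    unfold sh
    push_cast
    rw [one_mul]
  rw [e a, e a']
  exact h'

/-- an open edge links its end vertices -/
theorem link_open {n M : ℕ} {ρ : ℤ} {C : Finset (Pq n)} {U : Finset Edg} {e : Edg}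
    (he : e ∈ pull n ρ U C) (h0 : 0 ≤ e.1 - e.2.1 + ρ - 1) (h1 : e.1 - e.2.1 + ρ < 2 * M) :
    CR (2 * n) (2 * M) (st C) (fV n ρ (src e)) (fV n ρ (tgt e)) := by
  apply Relation.EqvGen.rel
  obtain ⟨x, y, b⟩ := e
  unfold pull pullF at he
  rw [Finset.mem_filter] at he
  have he2 := he.2
  cases b
  · simp only [pE, Bool.false_eq_true, if_false, Bool.not_false, iff_true] at he2
    simp only at h0 h1
    refine ⟨x + y + n, (x - y + ρ - 1).toNat, by omega, Or.inr ⟨?_, ?_, ?_⟩⟩
    · simp only [st, decide_eq_true_eq]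
      exact he2
    · simp only [fV, src_mk, Prod.mk.injEq, true_and]
      omega
    · simp only [fV, tgt_false, Prod.mk.injEq]
      constructor
      · ring
      · omega
  · simp only [pE, if_true, Bool.not_true, Bool.false_eq_true, iff_false, sub_zero] at he2
    simp only at h0 h1
    refine ⟨x + y + n, (x - y + ρ).toNat, by omega, Or.inl ⟨?_, ?_, ?_⟩⟩
    · simp only [st, decide_eq_false_iff_not]
      exact he2
    · simp only [fV, src_mk]
    · simp only [fV, tgt_true, Prod.mk.injEq]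
      constructor
      · ring
      · omega

/-- a closed edge links its two faces -/
theorem link_closed {n M : ℕ} {ρ : ℤ} {C : Finset (Pq n)} {U : Finset Edg} {e : Edg}
    (he : e ∈ U) (he' : e ∉ pull n ρ U C) (h0 : 0 ≤ e.1 - e.2.1 + ρ - 1)
    (h1 : e.1 - e.2.1 + ρ < 2 * M) :
    CR (2 * n) (2 * M) (st C) (fD n ρ (dsrc e)) (fD n ρ (dtgt e)) := by
  apply Relation.EqvGen.rel
  obtain ⟨x, y, b⟩ := e
  unfold pull pullF at he'
  rw [Finset.mem_filter, not_and] at he'
  have he2 := he' he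
  cases b
  · simp only [pE, Bool.false_eq_true, if_false, Bool.not_false, iff_true] at he2
    simp only at h0 h1
    refine ⟨x + y + n, (x - y + ρ - 1).toNat, by omega, Or.inl ⟨?_, ?_, ?_⟩⟩
    · simp only [st, decide_eq_false_iff_not]
      exact he2
    · simp only [fD, dsrc_false, Prod.mk.injEq]
      constructor
      · ring
      · congr 1
        ring
    · simp only [fD, dtgt_mk, Prod.mk.injEq, true_and]
      omega
  · simp only [pE, if_true, Bool.not_true, Bool.false_eq_true, iff_false, sub_zero,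
      not_not] at he2
    simp only at h0 h1
    refine ⟨x + y + n, (x - y + ρ).toNat, by omega, Or.inr ⟨?_, ?_, ?_⟩⟩
    · simp only [st, decide_eq_true_eq]
      exact he2
    · simp only [fD, dsrc_true, Prod.mk.injEq]
      constructor
      · ring
      · omega
    · simp only [fD, dtgt_mk]

theorem walk_reach {n N : ℕ} {c : ℕ → Fin (2 * n + 1) → Bool} {g : Vtx → ℤ × ℕ} {H : Set Edg}
    (hH : ∀ e ∈ H, CR (2 * n) N c (g (src e)) (g (tgt e))) {u v : Vtx} (h : Reach H u v) :
    CR (2 * n) N c (g u) (g v) := by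
  induction h with
  | refl => exact Relation.EqvGen.refl _
  | tail _ hs ih =>
    refine Relation.EqvGen.trans _ _ _ ih ?_
    obtain ⟨e, he, h | h⟩ := hs
    · obtain ⟨rfl, rfl⟩ := h
      exact hH e he
    · obtain ⟨rfl, rfl⟩ := h
      exact Relation.EqvGen.symm _ _ (hH e he)

theorem walk_dreach {n N : ℕ} {c : ℕ → Fin (2 * n + 1) → Bool} {g : Vtx → ℤ × ℕ} {H : Set Edg}
    (hH : ∀ e ∈ H, CR (2 * n) N c (g (dsrc e)) (g (dtgt e))) {u v : Vtx} (h : DReach H u v) :
    CR (2 * n) N c (g u) (g v) := by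
  induction h with
  | refl => exact Relation.EqvGen.refl _
  | tail _ hs ih =>
    refine Relation.EqvGen.trans _ _ _ ih ?_
    obtain ⟨e, he, h | h⟩ := hs
    · obtain ⟨rfl, rfl⟩ := h
      exact hH e he
    · obtain ⟨rfl, rfl⟩ := h
      exact Relation.EqvGen.symm _ _ (hH e he)

end Pool.Agent.H988R5
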