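import Pool.Agent.H988R5.Defs
import Pool.Agent.H988R5.Walk

/-!
# C3: paths that cross meet (helper541)
-/

namespace Pool.Agent.H988R5
open Equiv Finset Pool.Agent.H974R3 Pool.Agent.H988R3 Pool.Agent.H988R4
open H974 hiding SS
open H12S (Cn e0)

/-- two primal paths crossing a rectangle in different directions meet -/
theorem paths_meet {G1 G2 : Set Edg} {a b c d : ℤ} (hab : a < b) (hcd : c < d)
    (hH1 : ∀ x y, ((x, y, true) : Edg) ∈ G1 → a ≤ x → x < b → c ≤ y ∧ y ≤ d)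
    (hV1 : ∀ x y, ((x, y, false) : Edg) ∈ G1 → a < x → x < b → c ≤ y ∧ y < d)
    (hV2 : ∀ x y, ((x, y, false) : Edg) ∈ G2 → c ≤ y → y < d → a ≤ x ∧ x ≤ b)
    (hH2 : ∀ x y, ((x, y, true) : Edg) ∈ G2 → c < y → y < d → a ≤ x ∧ x < b)
    {u v u' v' : Vtx} (h1 : Reach G1 u v) (hu : u.1 ≤ a) (hv : b ≤ v.1)
    (h2 : Reach G2 u' v') (hu' : u'.2 ≤ c) (hv' : d ≤ v'.2) : Reach (G1 ∪ G2) u u' := by
  obtain ⟨y1, y2, k1, k2, k3, k4⟩ := sub_LR (a := a) (b := b) (c := c) (d := d) hab hH1 hV1 h1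
    hu hv
  obtain ⟨x1, x2, l1, l2, l3, l4⟩ := sub_TB (a := a) (b := b) (c := c) (d := d) hcd hV2 hH2 h2
    hu' hv'
  have m := crossings_meet hab hcd.le (F := G1 ∪ G2) k2 l1
    (k3.mono (by rintro e ⟨h7, h8⟩; exact ⟨Or.inl h7, h8⟩))
    (l3.mono (by rintro e ⟨h7, h8⟩; exact ⟨Or.inr h7, h8⟩))
  exact (k4.mono Set.subset_union_left).trans
    ((m.mono Set.inter_subset_left).trans (l4.symm.mono Set.subset_union_right))

theorem c3_src_trl (s t : ℤ) (e : Edg) : src ((trl s t).φ e) = ((src e).1 + s, (src e).2 + t) :=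
  rfl

theorem c3_tgt_trl (s t : ℤ) (e : Edg) : tgt ((trl s t).φ e) = ((tgt e).1 + s, (tgt e).2 + t) := by
  obtain ⟨x, y, _ | _⟩ := e
  · simp; ring
  · simp; ring

theorem c3_fD (n : ℕ) (ρ : ℤ) (v : Vtx) : fD n ρ (v.1 + n, v.2 + n) = sh n (fV n ρ v) := by
  unfold fD sh fV
  refine Prod.ext ?_ ?_
  · simp only; ring
  · simp only
    congr 1
    ring

theorem c3_fV (n : ℕ) (ρ : ℤ) (v : Vtx) :
    fV n ρ (v.1 + (n + 1), v.2 + (n + 1)) = sh n (fD n ρ v) := by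
  unfold fD sh fV
  refine Prod.ext ?_ ?_
  · simp only; ring
  · simp only
    congr 1
    ring

theorem c3_DS {b w N : ℕ} {e : Edg} (h : e ∈ DS b w N) (hwb : w ≤ b) (hbN : b ≤ N) :
    (-(b:ℤ) ≤ e.1 ∧ e.1 ≤ b) ∧ (-(N:ℤ) ≤ e.2.1 ∧ e.2.1 ≤ b) := by
  obtain ⟨x, y, _ | _⟩ := e
  · unfold DS boxE at h
    rw [Finset.mem_union, mem_RE_false, mem_RE_false] at h
    simp only
    omega
  · unfold DS boxE at h
    rw [Finset.mem_union, mem_RE_true, mem_RE_true] at h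
    simp only
    omega

theorem c3_DN {b w N : ℕ} {e : Edg} (h : e ∈ DN b w N) (hwb : w ≤ b) (hbN : b ≤ N) :
    (-(b:ℤ) ≤ e.1 ∧ e.1 ≤ b) ∧ (-(b:ℤ) ≤ e.2.1 ∧ e.2.1 ≤ N) := by
  obtain ⟨x, y, _ | _⟩ := e
  · unfold DN boxE at h
    rw [Finset.mem_union, mem_RE_false, mem_RE_false] at h
    simp only
    omega
  · unfold DN boxE at h
    rw [Finset.mem_union, mem_RE_true, mem_RE_true] at h
    simp only
    omega

theorem c3_DE {b w N : ℕ} {e : Edg} (h : e ∈ DE b w N) (hwb : w ≤ b) (hbN : b ≤ N) :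
    (-(b:ℤ) ≤ e.1 ∧ e.1 ≤ N) ∧ (-(b:ℤ) ≤ e.2.1 ∧ e.2.1 ≤ b) := by
  obtain ⟨x, y, _ | _⟩ := e
  · unfold DE boxE at h
    rw [Finset.mem_union, mem_RE_false, mem_RE_false] at h
    simp only
    omega
  · unfold DE boxE at h
    rw [Finset.mem_union, mem_RE_true, mem_RE_true] at h
    simp only
    omega

theorem c3_DW {b w N : ℕ} {e : Edg} (h : e ∈ DW b w N) (hwb : w ≤ b) (hbN : b ≤ N) :
    (-(N:ℤ) ≤ e.1 ∧ e.1 ≤ b) ∧ (-(b:ℤ) ≤ e.2.1 ∧ e.2.1 ≤ b) := by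
  obtain ⟨x, y, _ | _⟩ := e
  · unfold DW boxE at h
    rw [Finset.mem_union, mem_RE_false, mem_RE_false] at h
    simp only
    omega
  · unfold DW boxE at h
    rw [Finset.mem_union, mem_RE_true, mem_RE_true] at h
    simp only
    omega

theorem c3_sub {b w N : ℕ} (hbN : b ≤ N) {e : Edg} (h : (e ∈ DS b w N ∨ e ∈ DN b w N) ∨
    (e ∈ DE b w N ∨ e ∈ DW b w N)) : e ∈ XV b w N ∪ XH b w N := by
  obtain ⟨x, y, _ | _⟩ := e
  · unfold DS DN DE DW boxE at h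
    unfold XV XH boxE
    simp only [Finset.mem_union, mem_RE_false] at h ⊢
    omega
  · unfold DS DN DE DW boxE at h
    unfold XV XH boxE
    simp only [Finset.mem_union, mem_RE_true] at h ⊢
    omega

theorem meet_SE {b w n N M : ℕ} {ρ : ℤ} (h : Lv b w n N M ρ) {U : Finset Edg}
    (hU : XV b w N ∪ XH b w N ⊆ U) {C : Finset (Pq n)} {e : Edg} {p q : Vtx}
    (hp : |p.1| ≤ 1 ∧ |p.2| ≤ 1) (hq : |q.1| ≤ 1 ∧ |q.2| ≤ 1)
    (h1 : ArmS b w N e p ↑(pull n ρ U C)) (h2 : ArmE b w N e q ↑(pull n ρ U C)) :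
    CR (2 * n) (2 * M) (st C) (fD n ρ q) (sh n (fV n ρ p)) := by
  obtain ⟨hS, lo, hi⟩ := h
  obtain ⟨w1, wb, b2, bn, hN⟩ := hS
  have hbN : b ≤ N := by omega
  obtain ⟨u, hu, hru⟩ := h1
  obtain ⟨f, hf, hrf⟩ := h2
  rw [abs_le, abs_le] at hp hq
  have r1 := reach_dl.mpr hrf
  have r2 := (trl n n).reach hru
  have hψ : ∀ v : Vtx, (trl n n).ψ v = (v.1 + n, v.2 + n) := fun v => rfl
  rw [hψ, hψ] at r2
  have key : Reach (dl '' ((↑(DE b w N) \ ↑(pull n ρ U C)) \ {e}) ∪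
      (trl n n).φ '' ((↑(pull n ρ U C) ∩ ↑(DS b w N)) \ {e})) q (u.1 + n, u.2 + n) := by
    refine paths_meet (a := n - w) (b := n + w) (c := -w - 1) (d := w) (by omega) (by omega)
      ?_ ?_ ?_ ?_ r1 (by omega) (by omega) r2.symm (by simp only; omega) (by simp only; omega)
    · rintro x y ⟨g, ⟨⟨hg, -⟩, -⟩, hgx⟩ ha hb
      have hg' : g = dl.symm (x, y, true) := by rw [← hgx, Equiv.symm_apply_apply]
      rw [dls_t] at hg'
      rw [hg'] at hg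
      unfold DE boxE at hg
      simp only [Finset.mem_coe, Finset.mem_union, mem_RE_false] at hg
      omega
    · rintro x y ⟨g, ⟨⟨hg, -⟩, -⟩, hgx⟩ ha hb
      have hg' : g = dl.symm (x, y, false) := by rw [← hgx, Equiv.symm_apply_apply]
      rw [dls_f] at hg'
      rw [hg'] at hg
      unfold DE boxE at hg
      simp only [Finset.mem_coe, Finset.mem_union, mem_RE_true] at hg
      omega
    · rintro x y ⟨g, ⟨⟨-, hg⟩, -⟩, hgx⟩ ha hb
      have hg' : g = (trl n n).φ.symm (x, y, false) := by rw [← hgx, Equiv.symm_apply_apply]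
      rw [trl_φs] at hg'
      rw [hg'] at hg
      unfold DS boxE at hg
      simp only [Finset.mem_coe, Finset.mem_union, mem_RE_false] at hg
      omega
    · rintro x y ⟨g, ⟨⟨-, hg⟩, -⟩, hgx⟩ ha hb
      have hg' : g = (trl n n).φ.symm (x, y, true) := by rw [← hgx, Equiv.symm_apply_apply]
      rw [trl_φs] at hg'
      rw [hg'] at hg
      unfold DS boxE at hg
      simp only [Finset.mem_coe, Finset.mem_union, mem_RE_true] at hg
      omega
  have key2 := key.trans (r2.symm.mono Set.subset_union_right)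
  rw [← c3_fD]
  refine walk_reach (g := fD n ρ) ?_ key2
  rintro g (⟨g', ⟨⟨hg, hgF⟩, -⟩, rfl⟩ | ⟨g', ⟨⟨hgF, hg⟩, -⟩, rfl⟩)
  · rw [src_dl, tgt_dl]
    have hg2 := c3_DE (Finset.mem_coe.1 hg) wb hbN
    refine link_closed (hU (c3_sub hbN (Or.inr (Or.inl hg)))) (by simpa using hgF) ?_ ?_
    · omega
    · omega
  · rw [c3_src_trl, c3_tgt_trl, c3_fD, c3_fD]
    have hg2 := c3_DS (Finset.mem_coe.1 hg) wb hbN
    refine CR_sh (link_open (by simpa using hgF) ?_ ?_)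
    · omega
    · omega

theorem meet_NW {b w n N M : ℕ} {ρ : ℤ} (h : Lv b w n N M ρ) {U : Finset Edg}
    (hU : XV b w N ∪ XH b w N ⊆ U) {C : Finset (Pq n)} {e : Edg} {p q : Vtx}
    (hp : |p.1| ≤ 1 ∧ |p.2| ≤ 1) (hq : |q.1| ≤ 1 ∧ |q.2| ≤ 1)
    (h1 : ArmN b w N e p ↑(pull n ρ U C)) (h2 : ArmW b w N e q ↑(pull n ρ U C)) :
    CR (2 * n) (2 * M) (st C) (fV n ρ p) (sh n (fD n ρ q)) := by
  obtain ⟨hS, lo, hi⟩ := h
  obtain ⟨w1, wb, b2, bn, hN⟩ := hS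
  have hbN : b ≤ N := by omega
  obtain ⟨u, hu, hru⟩ := h1
  obtain ⟨f, hf, hrf⟩ := h2
  rw [abs_le, abs_le] at hp hq
  have r1 := (trl (n + 1) (n + 1)).reach (reach_dl.mpr hrf)
  have hψ : ∀ v : Vtx, (trl (n + 1) (n + 1)).ψ v = (v.1 + (n + 1), v.2 + (n + 1)) := fun v => rfl
  rw [hψ, hψ] at r1
  have key : Reach ((trl (n + 1) (n + 1)).φ '' (dl '' ((↑(DW b w N) \ ↑(pull n ρ U C)) \ {e})) ∪
      ((↑(pull n ρ U C) ∩ ↑(DN b w N)) \ {e})) (f.1 + (n + 1), f.2 + (n + 1)) p := by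
    refine paths_meet (a := -w) (b := w) (c := n - w) (d := n + w + 1) (by omega) (by omega)
      ?_ ?_ ?_ ?_ r1.symm (by simp only; omega) (by simp only; omega) hru (by omega) (by omega)
    · rintro x y ⟨g0, ⟨g, ⟨⟨hg, -⟩, -⟩, rfl⟩, hgx⟩ ha hb
      have hg' : g = dl.symm ((trl (n + 1) (n + 1)).φ.symm (x, y, true)) := by
        rw [← hgx, Equiv.symm_apply_apply, Equiv.symm_apply_apply]
      rw [trl_φs, dls_t] at hg'
      rw [hg'] at hg
      unfold DW boxE at hg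
      simp only [Finset.mem_coe, Finset.mem_union, mem_RE_false] at hg
      omega
    · rintro x y ⟨g0, ⟨g, ⟨⟨hg, -⟩, -⟩, rfl⟩, hgx⟩ ha hb
      have hg' : g = dl.symm ((trl (n + 1) (n + 1)).φ.symm (x, y, false)) := by
        rw [← hgx, Equiv.symm_apply_apply, Equiv.symm_apply_apply]
      rw [trl_φs, dls_f] at hg'
      rw [hg'] at hg
      unfold DW boxE at hg
      simp only [Finset.mem_coe, Finset.mem_union, mem_RE_true] at hg
      omega
    · rintro x y ⟨⟨-, hg⟩, -⟩ ha hb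
      unfold DN boxE at hg
      simp only [Finset.mem_coe, Finset.mem_union, mem_RE_false] at hg
      omega
    · rintro x y ⟨⟨-, hg⟩, -⟩ ha hb
      unfold DN boxE at hg
      simp only [Finset.mem_coe, Finset.mem_union, mem_RE_true] at hg
      omega
  have key2 := key.symm.trans (r1.symm.mono Set.subset_union_left)
  rw [← c3_fV]
  refine walk_reach (g := fV n ρ) ?_ key2
  rintro g (⟨g0, ⟨g', ⟨⟨hg, hgF⟩, -⟩, rfl⟩, rfl⟩ | ⟨⟨hgF, hg⟩, -⟩)
  · rw [c3_src_trl, c3_tgt_trl, src_dl, tgt_dl, c3_fV, c3_fV]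
    have hg2 := c3_DW (Finset.mem_coe.1 hg) wb hbN
    refine CR_sh (link_closed (hU (c3_sub hbN (Or.inr (Or.inr hg)))) (by simpa using hgF) ?_ ?_)
    · omega
    · omega
  · have hg2 := c3_DN (Finset.mem_coe.1 hg) wb hbN
    refine link_open (by simpa using hgF) ?_ ?_
    · omega
    · omega

end Pool.Agent.H988R5
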