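import Pool.Agent.H988R5.Defs

/-!
# C4: the plus event gives four arms in straight tubes
-/

namespace Pool.Agent.H988R5
open Equiv Finset Pool.Agent.H974R3 Pool.Agent.H988R3 Pool.Agent.H988R4
open H974 hiding SS
open H12S (Cn e0)

theorem C4_reach_insert {G : Set Edg} {e : Edg} {u v : Vtx} (h : Reach (insert e G) u v) :
    Reach G u v ∨ (Reach G u (src e) ∧ Reach G (tgt e) v) ∨
      (Reach G u (tgt e) ∧ Reach G (src e) v) := by
  induction h with
  | refl => exact Or.inl (Reach.refl _ _)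
  | @tail w w' _ hs ih =>
    obtain ⟨e', he', hc⟩ := hs
    rcases he' with rfl | he'
    · rcases hc with ⟨h1, h2⟩ | ⟨h1, h2⟩
      · subst h1; subst h2
        rcases ih with ih | ⟨ih, _⟩ | ⟨ih, _⟩
        · exact Or.inr (Or.inl ⟨ih, Reach.refl _ _⟩)
        · exact Or.inr (Or.inl ⟨ih, Reach.refl _ _⟩)
        · exact Or.inl ih
      · subst h1; subst h2
        rcases ih with ih | ⟨ih, _⟩ | ⟨ih, _⟩
        · exact Or.inr (Or.inr ⟨ih, Reach.refl _ _⟩)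
        · exact Or.inl ih
        · exact Or.inr (Or.inr ⟨ih, Reach.refl _ _⟩)
    · have hstep : Reach G w w' := Adj.reach ⟨e', he', hc⟩
      rcases ih with ih | ⟨ih, ih'⟩ | ⟨ih, ih'⟩
      · exact Or.inl (ih.trans hstep)
      · exact Or.inr (Or.inl ⟨ih, ih'.trans hstep⟩)
      · exact Or.inr (Or.inr ⟨ih, ih'.trans hstep⟩)

theorem C4_dreach_insert {G : Set Edg} {e : Edg} {u v : Vtx} (h : DReach (insert e G) u v) :
    DReach G u v ∨ (DReach G u (dsrc e) ∧ DReach G (dtgt e) v) ∨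
      (DReach G u (dtgt e) ∧ DReach G (dsrc e) v) := by
  rw [← reach_dl, Set.image_insert_eq] at h
  have h2 := C4_reach_insert h
  simpa only [reach_dl, src_dl, tgt_dl] using h2

theorem C4_restrict {G H : Set Edg} {u v : Vtx} (h : Reach G u v)
    (hH : ∀ e ∈ G, Reach G u (src e) → Reach G u (tgt e) → e ∈ H) : Reach H u v := by
  have key : ∀ w, Reach G u w → Reach H u w := by
    intro w hw
    induction hw with
    | refl => exact Reach.refl _ _
    | @tail w w' hw hs ih =>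
      obtain ⟨e, he, hc⟩ := hs
      have hw' : Reach G u w' := Reach.trans hw (Adj.reach ⟨e, he, hc⟩)
      have hw0 : Reach G u w := hw
      have heH : e ∈ H := by
        rcases hc with ⟨h1, h2⟩ | ⟨h1, h2⟩
        · exact hH e he (h1 ▸ hw0) (h2 ▸ hw')
        · exact hH e he (h1 ▸ hw') (h2 ▸ hw0)
      exact ih.trans (Adj.reach ⟨e, heH, hc⟩)
  exact key v h

theorem C4_drestrict {G H : Set Edg} {u v : Vtx} (h : DReach G u v)
    (hH : ∀ e ∈ G, DReach G u (dsrc e) → DReach G u (dtgt e) → e ∈ H) : DReach H u v := by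
  rw [← reach_dl] at h ⊢
  refine C4_restrict h ?_
  rintro _ ⟨e, he, rfl⟩ h1 h2
  rw [src_dl, reach_dl] at h1
  rw [tgt_dl, reach_dl] at h2
  exact Set.mem_image_of_mem _ (hH e he h1 h2)

/-- vertical segment -/
theorem C4_up {G : Set Edg} {x y y' : ℤ} (hy : y ≤ y')
    (h : ∀ t, y ≤ t → t < y' → ((x, t, false) : Edg) ∈ G) : Reach G (x, y) (x, y') := by
  obtain ⟨n, hn⟩ := Int.eq_ofNat_of_zero_le (sub_nonneg.mpr hy)
  have key : ∀ m : ℕ, m ≤ n → Reach G (x, y) (x, y + m) := by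
    intro m
    induction m with
    | zero => intro _; simpa using Reach.refl G (x, y)
    | succ m ih =>
      intro hm
      have h1 := ih (by omega)
      have h2 : Adj G (x, y + m) (x, y + ((m + 1 : ℕ) : ℤ)) :=
        ⟨(x, y + m, false), h _ (by omega) (by omega), Or.inl ⟨by simp, by
          simp only [tgt_false, Prod.mk.injEq, true_and]; push_cast; ring⟩⟩
      exact h1.trans h2.reach
  have := key n le_rfl
  have hy' : y' = y + n := by omega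
  rw [hy']
  exact this

/-- horizontal dual segment -/
theorem C4_right {G : Set Edg} {x x' y : ℤ} (hx : x ≤ x')
    (h : ∀ t, x < t → t ≤ x' → ((t, y, false) : Edg) ∈ G) : DReach G (x, y) (x', y) := by
  obtain ⟨n, hn⟩ := Int.eq_ofNat_of_zero_le (sub_nonneg.mpr hx)
  have key : ∀ m : ℕ, m ≤ n → DReach G (x, y) (x + m, y) := by
    intro m
    induction m with
    | zero => intro _; simpa using DReach.refl G (x, y)
    | succ m ih =>
      intro hm
      have h1 := ih (by omega)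
      have h2 : DAdj G (x + m, y) (x + ((m + 1 : ℕ) : ℤ), y) :=
        ⟨(x + ((m + 1 : ℕ) : ℤ), y, false), h _ (by omega) (by omega), Or.inl ⟨by
          simp only [dsrc_false, Prod.mk.injEq, and_true]; push_cast; ring, by simp⟩⟩
      exact h1.trans h2.reach
  have := key n le_rfl
  have hx' : x' = x + n := by omega
  rw [hx']
  exact this

theorem C4_dreach_tps {G : Set Edg} {u v : Vtx} (h : DReach G u v) :
    DReach (tps.φ '' G) (u.2, u.1) (v.2, v.1) := by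
  induction h with
  | refl => exact DReach.refl _ _
  | @tail w w' _ hs ih =>
    refine ih.trans (DAdj.reach ?_)
    obtain ⟨⟨x, y, bo⟩, he, hc⟩ := hs
    refine ⟨tps.φ (x, y, bo), Set.mem_image_of_mem _ he, ?_⟩
    cases bo
    · simp only [dsrc_false, dtgt_mk] at hc
      rcases hc with ⟨h1, h2⟩ | ⟨h1, h2⟩
      · left; rw [← h1, ← h2]; simp
      · right; rw [← h1, ← h2]; simp
    · simp only [dsrc_true, dtgt_mk] at hc
      rcases hc with ⟨h1, h2⟩ | ⟨h1, h2⟩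
      · left; rw [← h1, ← h2]; simp
      · right; rw [← h1, ← h2]; simp

/-- An open bottom-top path and a closed dual left-right path cannot coexist. -/
theorem C4_no_both {a b c d : ℤ} (hab : a ≤ b) {F : Set Edg} {y y' x x' : ℤ}
    (hx' : a ≤ x' ∧ x' ≤ b) (hy : c ≤ y ∧ y < d)
    (h1 : Reach (F ∩ TBE a b c d) (x, c) (x', d))
    (h2 : DReach (Fᶜ ∩ TBE a b c d) (a - 1, y) (b, y')) : False := by
  have h3 := tps.reach h1
  have h4 := C4_dreach_tps h2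
  rw [tps_ψ, tps_ψ, Set.image_inter tps.φ.injective, ← LSym.coe_mp, tps_TBE] at h3
  rw [Set.image_inter tps.φ.injective, ← LSym.coe_mp, tps_TBE, Set.image_compl_eq tps.φ.bijective]
    at h4
  exact no_both hab hx' hy h3 h4

/-- dual left-right crossing along the boundary of a set containing the bottom but not the top -/
theorem C4_dual_crossing {a b c d : ℤ} (hab : a ≤ b) (hcd : c ≤ d) (W : Vtx → Prop)
    (hB : ∀ x, a ≤ x → x ≤ b → W (x, c)) (hT : ∀ x, a ≤ x → x ≤ b → ¬ W (x, d)) :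
    ∃ y y', (c ≤ y ∧ y < d) ∧ (c ≤ y' ∧ y' < d) ∧
      DReach (bdry W ∩ TBE a b c d) (a - 1, y) (b, y') := by
  obtain ⟨x, x', hx, hx', h⟩ := dual_crossing hcd hab (fun v => W (v.2, v.1)) hB hT
  refine ⟨x, x', hx, hx', ?_⟩
  have h4 := C4_dreach_tps h
  rw [Set.image_inter tps.φ.injective, ← LSym.coe_mp, tps_LRE] at h4
  refine h4.mono (Set.inter_subset_inter_left _ ?_)
  rintro _ ⟨⟨x0, y0, bo⟩, he, rfl⟩
  cases bo
  · simpa [bdry] using he
  · simpa [bdry] using he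

theorem C4_inv {G : Set Edg} {P : Vtx → Prop} (hG : ∀ e ∈ G, P (src e) ∧ P (tgt e)) {u z : Vtx}
    (h : Reach G u z) : z = u ∨ P z := by
  induction h with
  | refl => exact Or.inl rfl
  | @tail w w' _ hs _ =>
    obtain ⟨e, he, hc⟩ := hs
    right
    rcases hc with ⟨_, h2⟩ | ⟨h1, _⟩
    · rw [← h2]; exact (hG e he).2
    · rw [← h1]; exact (hG e he).1

theorem C4_dinv {G : Set Edg} {P : Vtx → Prop} (hG : ∀ e ∈ G, P (dsrc e) ∧ P (dtgt e)) {u z : Vtx}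
    (h : DReach G u z) : z = u ∨ P z := by
  rw [← reach_dl] at h
  refine C4_inv ?_ h
  rintro _ ⟨e, he, rfl⟩
  rw [src_dl, tgt_dl]
  exact hG e he

theorem plus_arms {b w N : ℕ} (hw : 1 ≤ w) (hwb : w ≤ b) (hbN : b < N) {e : Edg}
    (he : e ∈ boxE b) {F : Set Edg} (h : Plus b w N e F) :
    ∃ p p' q q' : Vtx, Ends e p p' q q' ∧ ArmS b w N e p F ∧ ArmN b w N e p' F ∧
      ArmE b w N e q F ∧ ArmW b w N e q' F := by
  obtain ⟨⟨u, hu, v, hv, huv⟩, hno⟩ := h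
  replace hu : u.2 = -(N:ℤ) := hu
  replace hv : v.2 = (N:ℤ) := hv
  set G1 : Set Edg := (F ∩ ↑(XV b w N)) \ {e} with hG1
  set G2 : Set Edg := ((F ∩ ↑(XH b w N)) ∪ ↑(boxE N \ XH b w N)) \ {e} with hG2
  have h12 : G1 ⊆ G2 := by
    rintro ⟨x, y, bo⟩ ⟨⟨h1, h2⟩, h3⟩
    refine ⟨?_, h3⟩
    by_cases h4 : ((x, y, bo) : Edg) ∈ XH b w N
    · exact Or.inl ⟨h1, h4⟩
    · right
      rw [Finset.mem_coe, Finset.mem_sdiff]
      refine ⟨?_, h4⟩
      rw [Finset.mem_coe] at h2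
      cases bo
      · simp only [XV, boxE, Finset.mem_union, mem_RE_false] at h2 ⊢; omega
      · simp only [XV, boxE, Finset.mem_union, mem_RE_true] at h2 ⊢; omega
  have hnoG2 : ∀ z z' : Vtx, z.2 = -(N:ℤ) → z'.2 = (N:ℤ) → ¬ Reach G2 z z' :=
    fun z z' h1 h2 h3 => hno ⟨z, h1, z', h2, h3⟩
  -- the open path in the box `T`
  set T : Set Edg := ↑(TBE (-(N:ℤ)) N (-(N:ℤ)) N) with hT
  set O : Set Edg := insert e (F ∩ ↑(XV b w N)) with hO
  have hON : ∀ e' ∈ O, e' ∈ boxE N := by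
    intro e' he'
    have h1 : e' ∈ XV b w N := by
      rcases he' with rfl | ⟨_, h1⟩
      · exact Finset.mem_union_left _ he
      · exact h1
    obtain ⟨x, y, bo⟩ := e'
    cases bo
    · simp only [XV, boxE, Finset.mem_union, mem_RE_false] at h1 ⊢; omega
    · simp only [XV, boxE, Finset.mem_union, mem_RE_true] at h1 ⊢; omega
  obtain ⟨x1, x2, hx1, hx2, hpath, -⟩ := sub_TB (G := O) (a := -(N:ℤ)) (b := N) (c := -(N:ℤ))
    (d := N) (by omega)
    (by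
      intro x y h1 _ _
      have := hON _ h1
      simp only [boxE, mem_RE_false] at this; omega)
    (by
      intro x y h1 _ _
      have := hON _ h1
      simp only [boxE, mem_RE_true] at this; omega) huv hu.le hv.ge
  have hnb : ∀ y y' : ℤ, (-(N:ℤ) ≤ y ∧ y < N) → ¬ DReach (Oᶜ ∩ T) (-(N:ℤ) - 1, y) (N, y') := by
    intro y y' hy hd
    exact C4_no_both (by omega) hx2 hy hpath hd
  -- the dual path
  set K : Set Edg := ((↑(XH b w N) \ F) \ {e}) ∩ T with hK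
  have hKO : K ⊆ Oᶜ ∩ T := by
    rintro e' ⟨⟨⟨_, h2⟩, h3⟩, h4⟩
    refine ⟨?_, h4⟩
    rintro (h5 | ⟨h5, _⟩)
    · exact h3 h5
    · exact h2 h5
  obtain ⟨y, y', hy, hy', hdual⟩ := C4_dual_crossing (a := -(N:ℤ)) (b := N) (c := -(N:ℤ)) (d := N)
    (by omega) (by omega) (fun z => ∃ u' : Vtx, u'.2 = -(N:ℤ) ∧ Reach G2 u' z)
    (fun x _ _ => ⟨(x, -(N:ℤ)), rfl, Reach.refl _ _⟩)
    (by
      rintro x _ _ ⟨u', h1, h2⟩
      exact hnoG2 u' _ h1 rfl h2)
  have hdual2 : DReach (insert e K) (-(N:ℤ) - 1, y) (N, y') := by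
    refine hdual.mono ?_
    rintro e' ⟨h1, h2⟩
    by_cases h3 : e' = e
    · exact Or.inl h3
    right
    have h4 : e' ∉ G2 := by
      intro h4
      apply h1
      constructor
      · rintro ⟨u', h5, h6⟩
        exact ⟨u', h5, h6.trans (Adj.reach ⟨e', h4, Or.inl ⟨rfl, rfl⟩⟩)⟩
      · rintro ⟨u', h5, h6⟩
        exact ⟨u', h5, h6.trans (Adj.reach ⟨e', h4, Or.inr ⟨rfl, rfl⟩⟩)⟩
    have h5 : e' ∈ boxE N := TBE_subset_RE h2
    have h6 : e' ∈ XH b w N := by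
      by_contra h6
      exact h4 ⟨Or.inr (by rw [Finset.mem_coe, Finset.mem_sdiff]; exact ⟨h5, h6⟩), h3⟩
    have h7 : e' ∉ F := fun h7 => h4 ⟨Or.inl ⟨h7, h6⟩, h3⟩
    exact ⟨⟨⟨h6, h7⟩, h3⟩, h2⟩
  have hKT : ∀ e' ∈ K, ((-(N:ℤ) - 1 ≤ (dsrc e').1 ∧ (dsrc e').1 ≤ N) ∧
      (-(N:ℤ) ≤ (dsrc e').2 ∧ (dsrc e').2 < N)) ∧
      ((-(N:ℤ) - 1 ≤ (dtgt e').1 ∧ (dtgt e').1 ≤ N) ∧
      (-(N:ℤ) ≤ (dtgt e').2 ∧ (dtgt e').2 < N)) := by
    rintro ⟨x, y, bo⟩ ⟨_, h1⟩
    rw [hT, Finset.mem_coe] at h1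
    cases bo
    · simp only [mem_TBE_false] at h1
      simp only [dsrc_false, dtgt_mk]; omega
    · simp only [mem_TBE_true] at h1
      simp only [dsrc_true, dtgt_mk]; omega
  have hrangeR : ∀ z, DReach K ((N:ℤ), y') z → (-(N:ℤ) - 1 ≤ z.1 ∧ z.1 ≤ N) ∧
      (-(N:ℤ) ≤ z.2 ∧ z.2 < N) := by
    intro z hz
    rcases C4_dinv (P := fun z => (-(N:ℤ) - 1 ≤ z.1 ∧ z.1 ≤ N) ∧ (-(N:ℤ) ≤ z.2 ∧ z.2 < N))
      hKT hz with h1 | h1
    · rw [h1]; exact ⟨by simp only; omega, hy'⟩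
    · exact h1
  have hrangeL : ∀ z, DReach K (-(N:ℤ) - 1, y) z → (-(N:ℤ) - 1 ≤ z.1 ∧ z.1 ≤ N) ∧
      (-(N:ℤ) ≤ z.2 ∧ z.2 < N) := by
    intro z hz
    rcases C4_dinv (P := fun z => (-(N:ℤ) - 1 ≤ z.1 ∧ z.1 ≤ N) ∧ (-(N:ℤ) ≤ z.2 ∧ z.2 < N))
      hKT hz with h1 | h1
    · rw [h1]; exact ⟨by simp only; omega, hy⟩
    · exact h1
  have hOcol : ∀ x y : ℤ, (x ≤ -(b:ℤ) - 1 ∨ (b:ℤ) + 1 ≤ x) → ((x, y, false) : Edg) ∈ Oᶜ := by
    intro x y hx h1
    have h2 : ((x, y, false) : Edg) ∈ XV b w N := by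
      rcases h1 with h1 | ⟨_, h1⟩
      · rw [h1]; exact Finset.mem_union_left _ he
      · exact h1
    simp only [XV, boxE, Finset.mem_union, mem_RE_false] at h2
    omega
  have hE : ∀ z, DReach K ((N:ℤ), y') z → -(b:ℤ) ≤ z.1 := by
    intro z hz
    by_contra hcon
    push Not at hcon
    have hr := hrangeR z hz
    have h1 : DReach (Oᶜ ∩ T) (-(N:ℤ) - 1, z.2) (z.1, z.2) := by
      refine C4_right (by omega) ?_
      intro t ht1 ht2
      refine ⟨hOcol _ _ (by omega), ?_⟩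
      rw [hT, Finset.mem_coe, mem_TBE_false]; omega
    exact hnb z.2 y' hr.2 (h1.trans (hz.symm.mono hKO))
  have hWe : ∀ z, DReach K (-(N:ℤ) - 1, y) z → z.1 ≤ (b:ℤ) - 1 := by
    intro z hz
    by_contra hcon
    push Not at hcon
    have hr := hrangeL z hz
    have h1 : DReach (Oᶜ ∩ T) (z.1, z.2) ((N:ℤ), z.2) := by
      refine C4_right (by omega) ?_
      intro t ht1 ht2
      refine ⟨hOcol _ _ (by omega), ?_⟩
      rw [hT, Finset.mem_coe, mem_TBE_false]; omega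
    exact hnb y z.2 hy ((hz.mono hKO).trans h1)
  -- the arms of the faces
  have armE : ∀ q, DReach K q ((N:ℤ), y') → ArmE b w N e q F := by
    intro q hq
    refine ⟨((N:ℤ), y'), le_rfl, ?_⟩
    apply DReach.symm
    refine C4_drestrict hq.symm ?_
    rintro ⟨x, t, bo⟩ ⟨⟨⟨h1, h2⟩, h3⟩, h4⟩ h5 h6
    refine ⟨⟨?_, h2⟩, h3⟩
    have h7 := hE _ h5
    have h8 := hE _ h6
    rw [Finset.mem_coe] at h1 ⊢
    cases bo
    · simp only [dsrc_false, dtgt_mk] at h7 h8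
      simp only [XH, DE, boxE, Finset.mem_union, mem_RE_false] at h1 ⊢; omega
    · simp only [dsrc_true, dtgt_mk] at h7 h8
      simp only [XH, DE, boxE, Finset.mem_union, mem_RE_true] at h1 ⊢; omega
  have armW : ∀ q, DReach K (-(N:ℤ) - 1, y) q → ArmW b w N e q F := by
    intro q hq
    refine ⟨(-(N:ℤ) - 1, y), le_rfl, ?_⟩
    apply DReach.symm
    refine C4_drestrict hq ?_
    rintro ⟨x, t, bo⟩ ⟨⟨⟨h1, h2⟩, h3⟩, h4⟩ h5 h6
    refine ⟨⟨?_, h2⟩, h3⟩
    have h7 := hWe _ h5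
    have h8 := hWe _ h6
    rw [Finset.mem_coe] at h1 ⊢
    cases bo
    · simp only [dsrc_false, dtgt_mk] at h7 h8
      simp only [XH, DW, boxE, Finset.mem_union, mem_RE_false] at h1 ⊢; omega
    · simp only [dsrc_true, dtgt_mk] at h7 h8
      simp only [XH, DW, boxE, Finset.mem_union, mem_RE_true] at h1 ⊢; omega
  -- the arms of the vertices
  have hG1T : ∀ e' ∈ G1, ((-(N:ℤ) ≤ (src e').1 ∧ (src e').1 ≤ N) ∧
      (-(N:ℤ) ≤ (src e').2 ∧ (src e').2 ≤ N)) ∧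
      ((-(N:ℤ) ≤ (tgt e').1 ∧ (tgt e').1 ≤ N) ∧
      (-(N:ℤ) ≤ (tgt e').2 ∧ (tgt e').2 ≤ N)) := by
    rintro ⟨x, t, bo⟩ ⟨h1, _⟩
    have h2 := hON _ (Or.inr h1)
    cases bo
    · simp only [boxE, mem_RE_false] at h2
      simp only [src_mk, tgt_false]; omega
    · simp only [boxE, mem_RE_true] at h2
      simp only [src_mk, tgt_true]; omega
  have hG2col : ∀ x t : ℤ, (-(N:ℤ) ≤ x ∧ x ≤ N) → (-(N:ℤ) ≤ t ∧ t < N) →
      (t < -(b:ℤ) ∨ (b:ℤ) ≤ t) → ((x, t, false) : Edg) ∈ G2 := by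
    intro x t hx ht hb
    refine ⟨Or.inr ?_, ?_⟩
    · rw [Finset.mem_coe, Finset.mem_sdiff]
      simp only [XH, boxE, Finset.mem_union, mem_RE_false]; omega
    · rintro rfl
      simp only [boxE, mem_RE_false] at he; omega
  have hS : ∀ z, Reach G1 u z → z.2 ≤ (b:ℤ) := by
    intro z hz
    by_contra hcon
    push Not at hcon
    rcases C4_inv (P := fun z => (-(N:ℤ) ≤ z.1 ∧ z.1 ≤ N) ∧ (-(N:ℤ) ≤ z.2 ∧ z.2 ≤ N))
      hG1T hz with h1 | h1
    · rw [h1] at hcon; omega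
    · have h2 : Reach G2 (z.1, z.2) (z.1, (N:ℤ)) :=
        C4_up h1.2.2 fun t ht1 ht2 => hG2col _ _ h1.1 (by omega) (by omega)
      exact hnoG2 u _ hu rfl ((hz.mono h12).trans h2)
  have hN : ∀ z, Reach G1 v z → -(b:ℤ) ≤ z.2 := by
    intro z hz
    by_contra hcon
    push Not at hcon
    rcases C4_inv (P := fun z => (-(N:ℤ) ≤ z.1 ∧ z.1 ≤ N) ∧ (-(N:ℤ) ≤ z.2 ∧ z.2 ≤ N))
      hG1T hz with h1 | h1
    · rw [h1] at hcon; omega
    · have h2 : Reach G2 (z.1, -(N:ℤ)) (z.1, z.2) :=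
        C4_up h1.2.1 fun t ht1 ht2 => hG2col _ _ h1.1 (by omega) (by omega)
      exact hnoG2 _ v rfl hv (h2.trans (hz.symm.mono h12))
  have armS : ∀ p, Reach G1 u p → ArmS b w N e p F := by
    intro p hp
    refine ⟨u, hu, ?_⟩
    apply Reach.symm
    refine C4_restrict hp ?_
    rintro ⟨x, t, bo⟩ ⟨⟨h1, h2⟩, h3⟩ h5 h6
    refine ⟨⟨h1, ?_⟩, h3⟩
    have h7 := hS _ h5
    have h8 := hS _ h6
    rw [Finset.mem_coe] at h2 ⊢
    cases bo
    · simp only [src_mk, tgt_false] at h7 h8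
      simp only [XV, DS, boxE, Finset.mem_union, mem_RE_false] at h2 ⊢; omega
    · simp only [src_mk, tgt_true] at h7 h8
      simp only [XV, DS, boxE, Finset.mem_union, mem_RE_true] at h2 ⊢; omega
  have armN : ∀ p, Reach G1 p v → ArmN b w N e p F := by
    intro p hp
    refine ⟨v, hv, ?_⟩
    apply Reach.symm
    refine C4_restrict hp.symm ?_
    rintro ⟨x, t, bo⟩ ⟨⟨h1, h2⟩, h3⟩ h5 h6
    refine ⟨⟨h1, ?_⟩, h3⟩
    have h7 := hN _ h5
    have h8 := hN _ h6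
    rw [Finset.mem_coe] at h2 ⊢
    cases bo
    · simp only [src_mk, tgt_false] at h7 h8
      simp only [XV, DN, boxE, Finset.mem_union, mem_RE_false] at h2 ⊢; omega
    · simp only [src_mk, tgt_true] at h7 h8
      simp only [XV, DN, boxE, Finset.mem_union, mem_RE_true] at h2 ⊢; omega
  -- conclusion
  have huv1 : Reach (insert e G1) u v := by
    refine huv.mono ?_
    intro e' he'
    by_cases h1 : e' = e
    · exact Or.inl h1
    · rcases he' with h2 | h2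
      · exact Or.inl h2
      · exact Or.inr ⟨h2, h1⟩
  have hprim : ∃ p p' : Vtx, ((p = src e ∧ p' = tgt e) ∨ (p = tgt e ∧ p' = src e)) ∧
      Reach G1 u p ∧ Reach G1 p' v := by
    rcases C4_reach_insert huv1 with h1 | ⟨h1, h2⟩ | ⟨h1, h2⟩
    · exact absurd (h1.mono h12) (hnoG2 u v hu hv)
    · exact ⟨_, _, Or.inl ⟨rfl, rfl⟩, h1, h2⟩
    · exact ⟨_, _, Or.inr ⟨rfl, rfl⟩, h1, h2⟩
  have hdu : ∃ q q' : Vtx, ((q = dsrc e ∧ q' = dtgt e) ∨ (q = dtgt e ∧ q' = dsrc e)) ∧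
      DReach K q ((N:ℤ), y') ∧ DReach K (-(N:ℤ) - 1, y) q' := by
    rcases C4_dreach_insert hdual2 with h1 | ⟨h1, h2⟩ | ⟨h1, h2⟩
    · exact absurd (h1.mono hKO) (hnb y y' hy)
    · exact ⟨_, _, Or.inr ⟨rfl, rfl⟩, h2, h1⟩
    · exact ⟨_, _, Or.inl ⟨rfl, rfl⟩, h2, h1⟩
  obtain ⟨p, p', hp, hp1, hp2⟩ := hprim
  obtain ⟨q, q', hq, hq1, hq2⟩ := hdu
  exact ⟨p, p', q, q', ⟨hp, hq⟩, armS p hp1, armN p' hp2, armE q hq1, armW q' hq2⟩

end Pool.Agent.H988R5
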