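import Pool.Agent.H988R5.Defs

/-!
# Plaquette states and edge configurations (task C7, helper602)
-/

namespace Pool.Agent.H988R5
open Equiv Finset Pool.Agent.H974R3 Pool.Agent.H988R3 Pool.Agent.H988R4
open H974 hiding SS
open H12S (Cn e0)

theorem C7_Pr_half {E : Type*} [DecidableEq E] (S : Finset E) (A : Finset E → Prop) :
    Pr (fun _ => 1/2) S A = (1/2)^S.card * ∑ F ∈ S.powerset, ind (A F) := by
  unfold Pr Ex
  rw [Finset.mul_sum]
  apply Finset.sum_congr rfl
  intro F hF
  have hF' := Finset.mem_powerset.1 hF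
  rw [Finset.prod_const, Finset.prod_const]
  rw [show (1 - 1/2 : ℝ) = 1/2 by norm_num, ← pow_add, Finset.card_sdiff_of_subset hF']
  congr 2
  have := Finset.card_le_card hF'
  omega

/-- the set of the plaquettes in state `true` -/
def C7_Phi (n M : ℕ) (F : Finset Edg) : Finset (Pq n) :=
  (LamP n M).filter (fun p => pst n M F p.1 p.2 = true)

theorem C7_mem_LamP {n M : ℕ} {p : Pq n} : p ∈ LamP n M ↔ p.1 < 2 * M := by
  unfold LamP
  rw [Finset.mem_product, Finset.mem_range]
  exact ⟨fun h => h.1, fun h => ⟨h, Finset.mem_univ _⟩⟩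

theorem C7_st_Phi {n M : ℕ} (F : Finset Edg) {r : ℕ} (hr : r < 2 * M) :
    st (C7_Phi n M F) r = pst n M F r := by
  funext j
  have hm : ((r, j) : Pq n) ∈ C7_Phi n M F ↔ pst n M F r j = true := by
    unfold C7_Phi
    rw [Finset.mem_filter, C7_mem_LamP]
    exact ⟨fun h => h.2, fun h => ⟨hr, h⟩⟩
  unfold st
  cases h : pst n M F r j
  · rw [h] at hm
    simpa using hm
  · rw [h] at hm
    simpa using hm

theorem C7_izx {n k : ℕ} (hk : k < 2 * n + 1) : izx (2 * n) (k : ℤ) = ⟨k, hk⟩ := by
  unfold izx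
  apply Fin.ext
  simp only
  rw [Int.emod_eq_of_lt (by omega) (by push_cast; omega)]
  simp

theorem C7_izx' {n : ℕ} (hn : 1 ≤ n) :
    izx (2 * n) ((n : ℤ) + 1) = ⟨n + 1, by omega⟩ := by
  have := C7_izx (n := n) (k := n + 1) (by omega)
  rw [← this]
  push_cast
  rfl

theorem Pr_le_p4val' (n M : ℕ) (hn : 1 ≤ n) (A : Finset (Pq n) → Prop)
    (hA : ∀ C, C ⊆ LamP n M → A C → ∀ σ τ : Pat (2 * n + 1),
      P4 (izx (2 * n) n) (izx (2 * n) (n + 1)) (rows (2 * n) (st C) M σ)
        (rows (2 * n) (upr M (st C)) M τ)) :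
    Pr (fun _ => 1/2) (LamP n M) A ≤ p4val n := by
  have key := Pr_le_p4val n M hn (fun F => A (C7_Phi n M F)) (by
    intro F hF hAF σ τ
    have h1 := hA (C7_Phi n M F) (Finset.filter_subset _ _) hAF σ τ
    rw [C7_izx (by omega), C7_izx' hn] at h1
    have r1 : rows (2 * n) (st (C7_Phi n M F)) M σ = rows (2 * n) (cl n M F) M σ :=
      rows_congr (fun t ht => C7_st_Phi F (by omega)) σ
    have r2 : rows (2 * n) (upr M (st (C7_Phi n M F))) M τ = rows (2 * n) (cu n M F) M τ := by
      refine rows_congr (fun t ht => ?_) τ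
      funext j
      unfold upr cu
      rw [C7_st_Phi F (by omega)]
    rw [r1, r2] at h1
    exact h1)
  refine le_trans (le_of_eq ?_) key
  rw [C7_Pr_half, Pr_half, card_SS]
  have hcard : (LamP n M).card = (2 * n + 1) * (2 * M) := by
    unfold LamP
    rw [Finset.card_product, Finset.card_range, Finset.card_univ, Fintype.card_fin]
    ring
  rw [hcard]
  congr 1
  symm
  apply Finset.sum_nbij' (fun F => C7_Phi n M F) (fun C => FS n M (st C))
  · intro F _
    exact Finset.mem_powerset.2 (Finset.filter_subset _ _)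
  · intro C _
    exact Finset.mem_powerset.2 (FS_sub _ _ _)
  · intro F hF
    have hF' := Finset.mem_powerset.1 hF
    conv_rhs => rw [← FS_pst hF']
    exact FS_congr fun r hr => C7_st_Phi F hr
  · intro C hC
    have hC' := Finset.mem_powerset.1 hC
    ext ⟨r, j⟩
    unfold C7_Phi
    rw [Finset.mem_filter, C7_mem_LamP]
    constructor
    · rintro ⟨h1, h2⟩
      simp only at h1 h2
      rw [pst_FS h1] at h2
      unfold st at h2
      simpa using h2
    · intro h
      have h1 : r < 2 * M := C7_mem_LamP.1 (hC' h)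
      refine ⟨h1, ?_⟩
      simp only
      rw [pst_FS h1]
      unfold st
      simpa using h
  · intro F _
    rfl

end Pool.Agent.H988R5
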