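import Pool.Agent.H988R5.Defs

/-! C5: transport of four monotone arm events from the plane to the cylinder. -/

namespace Pool.Agent.H988R5
open Equiv Finset Pool.Agent.H974R3 Pool.Agent.H988R3 Pool.Agent.H988R4
open H974 hiding SS
open H12S (Cn e0)

/-- pulling back uniform bits along an injective map, with flips, gives uniform bits -/
theorem C5_pull_uniform {E E' : Type*} [DecidableEq E] [DecidableEq E'] (π : E → E')
    (s : E → Bool) (Z : Finset E) (hinj : Set.InjOn π ↑Z) (h : Finset E → ℝ) :
    Ex (fun _ => 1/2) (Z.image π) (fun C => h (pullF Z π s C)) = Ex (fun _ => 1/2) Z h := by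
  induction Z using Finset.induction_on generalizing h with
  | empty => simp [Ex_empty, pullF]
  | insert a Z ha ih =>
    have hinj' : Set.InjOn π ↑Z := hinj.mono (by simp)
    have hna : π a ∉ Z.image π := by
      intro hc
      obtain ⟨b, hb, hba⟩ := Finset.mem_image.mp hc
      have := hinj (by simp [hb]) (by simp) hba
      exact ha (this ▸ hb)
    have hne : ∀ e ∈ Z, π e ≠ π a := fun e he hc => hna (Finset.mem_image.mpr ⟨e, he, hc⟩)
    rw [Finset.image_insert, Ex_insert _ hna, Ex_insert _ ha]
    have k1 : ∀ C, C ⊆ Z.image π → h (pullF (insert a Z) π s (insert (π a) C)) =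
        if s a = true then h (insert a (pullF Z π s C)) else h (pullF Z π s C) := by
      intro C hC
      rw [← apply_ite h]
      congr 1
      ext e
      by_cases hs : s a = true
      · rw [if_pos hs]
        simp only [pullF, Finset.mem_filter, Finset.mem_insert]
        by_cases hea : e = a
        · subst hea; simp [hs]
        · simp only [hea, false_or]
          constructor
          · rintro ⟨h1, h2⟩
            refine ⟨h1, ?_⟩
            simpa [hne e h1] using h2
          · rintro ⟨h1, h2⟩
            refine ⟨h1, ?_⟩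
            simpa [hne e h1] using h2
      · rw [if_neg hs]
        simp only [pullF, Finset.mem_filter, Finset.mem_insert]
        by_cases hea : e = a
        · subst hea; simp [hs, ha]
        · simp only [hea, false_or]
          constructor
          · rintro ⟨h1, h2⟩
            refine ⟨h1, ?_⟩
            simpa [hne e h1] using h2
          · rintro ⟨h1, h2⟩
            refine ⟨h1, ?_⟩
            simpa [hne e h1] using h2
    have k2 : ∀ C, C ⊆ Z.image π → h (pullF (insert a Z) π s C) =
        if s a = true then h (pullF Z π s C) else h (insert a (pullF Z π s C)) := by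
      intro C hC
      have hac : π a ∉ C := fun hc => hna (hC hc)
      rw [← apply_ite h]
      congr 1
      ext e
      by_cases hs : s a = true
      · rw [if_pos hs]
        simp only [pullF, Finset.mem_filter, Finset.mem_insert]
        by_cases hea : e = a
        · subst hea; simp [hs, ha, hac]
        · simp only [hea, false_or]
      · rw [if_neg hs]
        simp only [pullF, Finset.mem_filter, Finset.mem_insert]
        by_cases hea : e = a
        · subst hea; simp [hs, hac]
        · simp only [hea, false_or]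
    rw [Ex_congr k1, Ex_congr k2]
    by_cases hs : s a = true
    · simp only [hs, if_true]
      rw [ih hinj' (fun F => h (insert a F)), ih hinj' h]
    · simp only [hs, Bool.false_eq_true, if_false]
      rw [ih hinj' (fun F => h (insert a F)), ih hinj' h]
      ring

theorem C5_ok {E : Type*} : Ok (fun _ : E => (1/2 : ℝ)) := fun _ => ⟨by norm_num, by norm_num⟩

/-- Harris' inequality for several increasing events -/
theorem C5_harris {E ι : Type*} [DecidableEq E] [DecidableEq ι] (S : Finset E) (I : Finset ι)
    (f : ι → Finset E → ℝ) (h0 : ∀ i F, 0 ≤ f i F) (hI : ∀ i, Incr S (f i)) :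
    ∏ i ∈ I, Ex (fun _ => 1/2) S (f i) ≤ Ex (fun _ => 1/2) S (fun F => ∏ i ∈ I, f i F) := by
  induction I using Finset.induction_on with
  | empty => simp [Ex_const]
  | insert a I ha ih =>
    rw [Finset.prod_insert ha]
    have h1 : Incr S (fun F => ∏ i ∈ I, f i F) := by
      intro A B hAB hB
      exact Finset.prod_le_prod (fun i _ => h0 i A) (fun i _ => hI i A B hAB hB)
    have h2 := harris (C5_ok (E := E)) (S := S) (hI a) h1
    have h3 : Ex (fun _ => 1/2) S (f a) * ∏ i ∈ I, Ex (fun _ => 1/2) S (f i) ≤
        Ex (fun _ => 1/2) S (f a) * Ex (fun _ => 1/2) S (fun F => ∏ i ∈ I, f i F) :=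
      mul_le_mul_of_nonneg_left ih (Ex_nonneg C5_ok (fun F _ => h0 a F))
    refine (h3.trans h2).trans (le_of_eq ?_)
    apply Ex_congr
    intro F _
    rw [Finset.prod_insert ha]

/-- independence of functions of disjoint blocks -/
theorem C5_indep {E ι : Type*} [DecidableEq E] [DecidableEq ι] (W : ι → Finset E)
    (hWW : ∀ i j, i ≠ j → Disjoint (W i) (W j)) (I : Finset ι) (g : ι → Finset E → ℝ) :
    Ex (fun _ => 1/2) (I.biUnion W) (fun B => ∏ i ∈ I, g i (B ∩ W i)) =
      ∏ i ∈ I, Ex (fun _ => 1/2) (W i) (g i) := by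
  induction I using Finset.induction_on with
  | empty => simp [Ex_empty]
  | insert a I ha ih =>
    have hd : Disjoint (W a) (I.biUnion W) := by
      rw [Finset.disjoint_biUnion_right]
      intro i hi
      exact hWW a i (fun h => ha (h ▸ hi))
    rw [Finset.biUnion_insert, Ex_union hd, Finset.prod_insert ha, ← ih, ← Ex_mul_right]
    apply Ex_congr
    intro A hA
    rw [← Ex_mul_left]
    apply Ex_congr
    intro B hB
    rw [Finset.prod_insert ha]
    have e1 : (A ∪ B) ∩ W a = A := by
      ext x
      simp only [Finset.mem_inter, Finset.mem_union]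
      constructor
      · rintro ⟨h | h, h2⟩
        · exact h
        · exact absurd (hB h) (Finset.disjoint_left.mp hd h2)
      · intro h
        exact ⟨Or.inl h, hA h⟩
    have e2 : ∀ i ∈ I, (A ∪ B) ∩ W i = B ∩ W i := by
      intro i hi
      ext x
      simp only [Finset.mem_inter, Finset.mem_union]
      constructor
      · rintro ⟨h | h, h2⟩
        · exact absurd h2 (Finset.disjoint_left.mp (hWW a i (fun h => ha (h ▸ hi))) (hA h))
        · exact ⟨h, h2⟩
      · rintro ⟨h, h2⟩
        exact ⟨Or.inr h, h2⟩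
    rw [e1]
    congr 1
    apply Finset.prod_congr rfl
    intro i hi
    rw [e2 i hi]

theorem C5_ind_forall {ι : Type*} [Fintype ι] (P : ι → Prop) :
    ind (∀ i, P i) = ∏ i, ind (P i) := by
  by_cases h : ∀ i, P i
  · rw [ind_of h, Finset.prod_congr rfl (fun i _ => ind_of (h i))]; simp
  · rw [ind_not_of h]
    push Not at h
    obtain ⟨i, hi⟩ := h
    exact (Finset.prod_eq_zero (Finset.mem_univ i) (ind_not_of hi)).symm

theorem transport {E E' : Type*} [DecidableEq E] [DecidableEq E'] (Z : Finset E)
    (W : Fin 4 → Finset E) (Λ : Finset E') (π : E → E') (s : E → Bool) (d : Fin 4 → Bool)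
    (A : Fin 4 → Finset E → Prop)
    (hZW : ∀ i, Disjoint Z (W i)) (hWW : ∀ i j, i ≠ j → Disjoint (W i) (W j))
    (hπ : ∀ e ∈ Z ∪ Finset.univ.biUnion W, π e ∈ Λ)
    (hinj : ∀ i, Set.InjOn π ↑(Z ∪ W i))
    (hcol : ∀ i j e e', e ∈ W i → e' ∈ W j → i ≠ j → π e = π e' → (s e = s e' ↔ d i = d j))
    (hloc : ∀ i F, A i F ↔ A i (F ∩ (Z ∪ W i)))
    (hmon : ∀ i F F', F ⊆ Z ∪ W i → F' ⊆ Z ∪ W i → F ∩ Z = F' ∩ Z →
      (if d i then F ⊆ F' else F' ⊆ F) → A i F → A i F') :
    Pr (fun _ => 1/2) (Z ∪ Finset.univ.biUnion W) (fun F => ∀ i, A i F) ≤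
      Pr (fun _ => 1/2) Λ (fun C => ∀ i, A i (pullF (Z ∪ Finset.univ.biUnion W) π s C)) := by
  classical
  set U : Finset E := Z ∪ Finset.univ.biUnion W with hU
  have hWU : ∀ i, W i ⊆ U := fun i => (Finset.subset_biUnion_of_mem W (Finset.mem_univ i)).trans
    Finset.subset_union_right
  have hZU : Z ⊆ U := Finset.subset_union_left
  -- the left side
  have hdZ : Disjoint Z (Finset.univ.biUnion W) := by
    rw [Finset.disjoint_biUnion_right]
    intro i _
    exact hZW i
  have hL : Pr (fun _ => 1/2) U (fun F => ∀ i, A i F) =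
      Ex (fun _ => 1/2) Z (fun F0 => ∏ i, Ex (fun _ => 1/2) (W i) (fun B => ind (A i (F0 ∪ B)))) := by
    unfold Pr
    rw [hU, Ex_union hdZ]
    apply Ex_congr
    intro F0 hF0
    rw [← C5_indep W hWW Finset.univ (fun i B => ind (A i (F0 ∪ B)))]
    apply Ex_congr
    intro B hB
    rw [C5_ind_forall]
    apply Finset.prod_congr rfl
    intro i _
    apply ind_congr
    rw [hloc i (F0 ∪ B), hloc i (F0 ∪ B ∩ W i)]
    have : (F0 ∪ B) ∩ (Z ∪ W i) = (F0 ∪ B ∩ W i) ∩ (Z ∪ W i) := by
      ext x
      simp only [Finset.mem_inter, Finset.mem_union]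
      constructor
      · rintro ⟨h1 | h1, h2 | h2⟩
        · exact ⟨Or.inl h1, Or.inl h2⟩
        · exact ⟨Or.inl h1, Or.inr h2⟩
        · exact absurd (hB h1) (Finset.disjoint_left.mp hdZ h2)
        · exact ⟨Or.inr ⟨h1, h2⟩, Or.inr h2⟩
      · rintro ⟨h1 | h1, h2⟩
        · exact ⟨Or.inl h1, h2⟩
        · exact ⟨Or.inr h1.1, h2⟩
    rw [this]
  -- the right side
  set Z' : Finset E' := Z.image π with hZ'
  have hZ'Λ : Z' ⊆ Λ := by
    intro x hx
    obtain ⟨e, he, rfl⟩ := Finset.mem_image.mp hx
    exact hπ e (hZU he)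
  set Λ' : Finset E' := Λ \ Z' with hΛ'
  have hdΛ : Disjoint Z' Λ' := Finset.disjoint_sdiff
  have hΛe : Λ = Z' ∪ Λ' := by rw [hΛ', Finset.union_sdiff_of_subset hZ'Λ]
  have hWΛ : ∀ i, ∀ e ∈ W i, π e ∈ Λ' := by
    intro i e he
    rw [hΛ', Finset.mem_sdiff]
    refine ⟨hπ e (hWU i he), ?_⟩
    intro hc
    obtain ⟨z, hz, hze⟩ := Finset.mem_image.mp hc
    have := hinj i (by simp [hz]) (by simp [he]) hze
    subst this
    exact Finset.disjoint_left.mp (hZW i) hz he
  have hinjZ : Set.InjOn π ↑Z := (hinj 0).mono (by simp)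
  have hinjW : ∀ i, Set.InjOn π ↑(W i) := fun i => (hinj i).mono (by simp)
  have hR : Pr (fun _ => 1/2) Λ (fun C => ∀ i, A i (pullF U π s C)) =
      Ex (fun _ => 1/2) Z (fun F0 => Ex (fun _ => 1/2) Λ'
        (fun C => ∏ i, ind (A i (F0 ∪ pullF (W i) π s C)))) := by
    rw [← C5_pull_uniform π s Z hinjZ]
    unfold Pr
    rw [hΛe, Ex_union hdΛ]
    apply Ex_congr
    intro C0 hC0
    apply Ex_congr
    intro C hC
    rw [C5_ind_forall]
    apply Finset.prod_congr rfl
    intro i _
    apply ind_congr
    rw [hloc i (pullF U π s (C0 ∪ C)), hloc i (pullF Z π s C0 ∪ pullF (W i) π s C)]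
    have : pullF U π s (C0 ∪ C) ∩ (Z ∪ W i) =
        (pullF Z π s C0 ∪ pullF (W i) π s C) ∩ (Z ∪ W i) := by
      ext x
      simp only [Finset.mem_inter, Finset.mem_union, pullF, Finset.mem_filter]
      constructor
      · rintro ⟨⟨h1, h2⟩, h3 | h3⟩
        · refine ⟨Or.inl ⟨h3, ?_⟩, Or.inl h3⟩
          have : π x ∉ C := fun h => Finset.disjoint_left.mp hdΛ
            (Finset.mem_image_of_mem π h3) (hC h)
          simpa [this] using h2
        · refine ⟨Or.inr ⟨h3, ?_⟩, Or.inr h3⟩
          have : π x ∉ C0 := fun h => Finset.disjoint_left.mp hdΛ (hC0 h) (hWΛ i x h3)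
          simpa [this] using h2
      · rintro ⟨⟨h3, h2⟩ | ⟨h3, h2⟩, h4⟩
        · refine ⟨⟨hZU h3, ?_⟩, h4⟩
          have : π x ∉ C := fun h => Finset.disjoint_left.mp hdΛ
            (Finset.mem_image_of_mem π h3) (hC h)
          simpa [this] using h2
        · refine ⟨⟨hWU i h3, ?_⟩, h4⟩
          have : π x ∉ C0 := fun h => Finset.disjoint_left.mp hdΛ (hC0 h) (hWΛ i x h3)
          simpa [this] using h2
    rw [this]
  rw [hL, hR]
  apply Ex_mono C5_ok
  intro F0 hF0
  -- flips
  let T : E' → Bool := fun l => decide (∃ i, ∃ e ∈ W i, π e = l ∧ s e = d i)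
  have hT : ∀ i, ∀ e ∈ W i, (T (π e) = true ↔ s e = d i) := by
    intro i e he
    simp only [T, decide_eq_true_eq]
    constructor
    · rintro ⟨j, e', he', hee, hs⟩
      by_cases hij : i = j
      · subst hij
        have := hinjW i (by simpa using he') (by simpa using he) hee
        rw [← this]; exact hs
      · have := hcol i j e e' he he' hij hee.symm
        revert this hs
        cases s e <;> cases s e' <;> cases d i <;> cases d j <;> simp
    · intro hs
      exact ⟨i, e, he, rfl, hs⟩
  have hflip : Ex (fun _ => 1/2) Λ' (fun C => ∏ i, ind (A i (F0 ∪ pullF (W i) π s C))) =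
      Ex (fun _ => 1/2) Λ' (fun C => ∏ i, ind (A i (F0 ∪ pullF (W i) π (fun _ => d i) C))) := by
    rw [← C5_pull_uniform (fun x : E' => x) T Λ' (fun x _ y _ h => h)
      (fun C => ∏ i, ind (A i (F0 ∪ pullF (W i) π s C)))]
    rw [Finset.image_id']
    apply Ex_congr
    intro C hC
    apply Finset.prod_congr rfl
    intro i _
    have : pullF (W i) π s (pullF Λ' (fun x : E' => x) T C) = pullF (W i) π (fun _ => d i) C := by
      ext x
      simp only [pullF, Finset.mem_filter]
      constructor
      · rintro ⟨h1, h2⟩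
        refine ⟨h1, ?_⟩
        have h3 := hT i x h1
        have h4 := hWΛ i x h1
        simp only [h4, true_and, h3] at h2
        revert h2
        by_cases hc : π x ∈ C <;> cases s x <;> cases d i <;> simp [hc]
      · rintro ⟨h1, h2⟩
        refine ⟨h1, ?_⟩
        have h3 := hT i x h1
        have h4 := hWΛ i x h1
        simp only [h4, true_and, h3]
        revert h2
        by_cases hc : π x ∈ C <;> cases s x <;> cases d i <;> simp [hc]
    rw [this]
  rw [hflip]
  have hinc : ∀ i, Incr Λ' (fun C => ind (A i (F0 ∪ pullF (W i) π (fun _ => d i) C))) := by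
    intro i C C' hCC hC'
    apply ind_mono
    apply hmon i
    · intro x hx
      rcases Finset.mem_union.mp hx with hx | hx
      · exact Finset.mem_union_left _ (hF0 hx)
      · exact Finset.mem_union_right _ (Finset.mem_filter.mp hx).1
    · intro x hx
      rcases Finset.mem_union.mp hx with hx | hx
      · exact Finset.mem_union_left _ (hF0 hx)
      · exact Finset.mem_union_right _ (Finset.mem_filter.mp hx).1
    · ext x
      simp only [Finset.mem_inter, Finset.mem_union, pullF, Finset.mem_filter]
      constructor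
      · rintro ⟨h1 | h1, h2⟩
        · exact ⟨Or.inl h1, h2⟩
        · exact absurd h1.1 (Finset.disjoint_left.mp (hZW i) h2)
      · rintro ⟨h1 | h1, h2⟩
        · exact ⟨Or.inl h1, h2⟩
        · exact absurd h1.1 (Finset.disjoint_left.mp (hZW i) h2)
    · by_cases hd : d i = true
      · rw [if_pos hd]
        intro x hx
        simp only [Finset.mem_union, pullF, Finset.mem_filter, hd, iff_true] at hx ⊢
        rcases hx with hx | hx
        · exact Or.inl hx
        · exact Or.inr ⟨hx.1, hCC hx.2⟩
      · rw [if_neg hd]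
        intro x hx
        have hd' : d i = false := by simpa using hd
        simp only [Finset.mem_union, pullF, Finset.mem_filter, hd', Bool.false_eq_true,
          iff_false] at hx ⊢
        rcases hx with hx | hx
        · exact Or.inl hx
        · exact Or.inr ⟨hx.1, fun h => hx.2 (hCC h)⟩
  refine le_trans (le_of_eq ?_) (C5_harris Λ' Finset.univ
    (fun i C => ind (A i (F0 ∪ pullF (W i) π (fun _ => d i) C))) (fun _ _ => ind_nonneg _) hinc)
  apply Finset.prod_congr rfl
  intro i _
  rw [← C5_pull_uniform π (fun _ => d i) (W i) (hinjW i)]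
  symm
  apply Ex_local
  · intro x hx
    obtain ⟨e, he, rfl⟩ := Finset.mem_image.mp hx
    exact hWΛ i e he
  · intro C _
    have : pullF (W i) π (fun _ => d i) C =
        pullF (W i) π (fun _ => d i) (C ∩ (W i).image π) := by
      ext x
      simp only [pullF, Finset.mem_filter, Finset.mem_inter]
      constructor
      · rintro ⟨h1, h2⟩
        refine ⟨h1, ?_⟩
        simpa [Finset.mem_image_of_mem π h1] using h2
      · rintro ⟨h1, h2⟩
        refine ⟨h1, ?_⟩
        simpa [Finset.mem_image_of_mem π h1] using h2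
    rw [← this]

end Pool.Agent.H988R5
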