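import Pool.Agent.H988R5.Corners
import Pool.Agent.H988R5.Meet
import Pool.Agent.H988R5.PlusArms
import Pool.Agent.H988R5.Transport
import Pool.Agent.H988R5.Geo
import Pool.Agent.H988R5.States
import Pool.Agent.H988R3.Asym
import Pool.Agent.H988R5.Bit

/-!
# Closing the four arms on the odd cylinder: final assembly (task C8, helper988)
-/

namespace Pool.Agent.H988R5
open Equiv Finset Pool.Agent.H974R3 Pool.Agent.H988R3 Pool.Agent.H988R4
open H974 hiding SS
open H12S (Cn e0)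

/-- the edge next to `e0 β` -/
def gE (β : Bool) : Edg := if β then (1, 0, false) else (0, 1, true)

theorem C8_g_mem {b : ℕ} (hb : 2 ≤ b) (β : Bool) : gE β ∈ boxE b := by
  have : (2:ℤ) ≤ b := by exact_mod_cast hb
  cases β
  · simp only [gE, boxE, Bool.false_eq_true, if_false, mem_RE_true]; omega
  · simp only [gE, boxE, if_true, mem_RE_false]; omega

theorem C8_e_mem {b : ℕ} (hb : 2 ≤ b) (β : Bool) : e0 β ∈ boxE b := by
  have : (2:ℤ) ≤ b := by exact_mod_cast hb
  cases β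
  · simp only [e0, boxE, mem_RE_false]; omega
  · simp only [e0, boxE, mem_RE_true]; omega

/-- the four events -/
noncomputable def AA (b w N : ℕ) (β γ : Bool) (p p' q q' : Vtx) (i : Fin 4) (F : Finset Edg) :
    Prop :=
  match i with
  | 0 => ArmS b w N (e0 β) p ↑F ∧ (gE β ∈ F ↔ γ = β) ∧ (e0 β ∈ F ↔ γ = !β)
  | 1 => ArmN b w N (e0 β) p' ↑F
  | 2 => ArmE b w N (e0 β) q ↑F
  | 3 => ArmW b w N (e0 β) q' ↑F

noncomputable def WW (b w N : ℕ) (i : Fin 4) : Finset Edg :=
  match i with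
  | 0 => DS b w N \ boxE b
  | 1 => DN b w N \ boxE b
  | 2 => DE b w N \ boxE b
  | 3 => DW b w N \ boxE b

theorem ArmS_loc {b w N : ℕ} {e : Edg} {p : Vtx} {F F' : Set Edg}
    (h : F ∩ ↑(DS b w N) = F' ∩ ↑(DS b w N)) : ArmS b w N e p F ↔ ArmS b w N e p F' := by
  unfold ArmS; rw [h]
theorem ArmN_loc {b w N : ℕ} {e : Edg} {p : Vtx} {F F' : Set Edg}
    (h : F ∩ ↑(DN b w N) = F' ∩ ↑(DN b w N)) : ArmN b w N e p F ↔ ArmN b w N e p F' := by
  unfold ArmN; rw [h]
theorem ArmE_loc {b w N : ℕ} {e : Edg} {p : Vtx} {F F' : Set Edg}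
    (h : F ∩ ↑(DE b w N) = F' ∩ ↑(DE b w N)) : ArmE b w N e p F ↔ ArmE b w N e p F' := by
  unfold ArmE
  have h1 : ∀ G : Set Edg, (↑(DE b w N) \ G : Set Edg) = ↑(DE b w N) \ (G ∩ ↑(DE b w N)) := by
    intro G; ext x; simp only [Set.mem_diff, Set.mem_inter_iff]; tauto
  rw [h1 F, h1 F', h]
theorem ArmW_loc {b w N : ℕ} {e : Edg} {p : Vtx} {F F' : Set Edg}
    (h : F ∩ ↑(DW b w N) = F' ∩ ↑(DW b w N)) : ArmW b w N e p F ↔ ArmW b w N e p F' := by
  unfold ArmW
  have h1 : ∀ G : Set Edg, (↑(DW b w N) \ G : Set Edg) = ↑(DW b w N) \ (G ∩ ↑(DW b w N)) := by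
    intro G; ext x; simp only [Set.mem_diff, Set.mem_inter_iff]; tauto
  rw [h1 F, h1 F', h]

/-- the arm events do not depend on the state of `e` -/
theorem ArmS_erase {b w N : ℕ} {e : Edg} {p : Vtx} {F F' : Set Edg}
    (h : F \ {e} = F' \ {e}) : ArmS b w N e p F ↔ ArmS b w N e p F' := by
  unfold ArmS
  have h1 : ∀ G : Set Edg, (G ∩ ↑(DS b w N)) \ {e} = (G \ {e}) ∩ ↑(DS b w N) := by
    intro G; ext x; simp only [Set.mem_diff, Set.mem_inter_iff]; tauto
  rw [h1 F, h1 F', h]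
theorem ArmN_erase {b w N : ℕ} {e : Edg} {p : Vtx} {F F' : Set Edg}
    (h : F \ {e} = F' \ {e}) : ArmN b w N e p F ↔ ArmN b w N e p F' := by
  unfold ArmN
  have h1 : ∀ G : Set Edg, (G ∩ ↑(DN b w N)) \ {e} = (G \ {e}) ∩ ↑(DN b w N) := by
    intro G; ext x; simp only [Set.mem_diff, Set.mem_inter_iff]; tauto
  rw [h1 F, h1 F', h]
theorem ArmE_erase {b w N : ℕ} {e : Edg} {p : Vtx} {F F' : Set Edg}
    (h : F \ {e} = F' \ {e}) : ArmE b w N e p F ↔ ArmE b w N e p F' := by
  unfold ArmE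
  have h1 : ∀ G : Set Edg, (↑(DE b w N) \ G) \ {e} = (↑(DE b w N) \ (G \ {e})) \ {e} := by
    intro G; ext x; simp only [Set.mem_diff, Set.mem_singleton_iff]; tauto
  rw [h1 F, h1 F', h]
theorem ArmW_erase {b w N : ℕ} {e : Edg} {p : Vtx} {F F' : Set Edg}
    (h : F \ {e} = F' \ {e}) : ArmW b w N e p F ↔ ArmW b w N e p F' := by
  unfold ArmW
  have h1 : ∀ G : Set Edg, (↑(DW b w N) \ G) \ {e} = (↑(DW b w N) \ (G \ {e})) \ {e} := by
    intro G; ext x; simp only [Set.mem_diff, Set.mem_singleton_iff]; tauto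
  rw [h1 F, h1 F', h]

theorem C8_cover {b w N : ℕ} (hwb : w ≤ b) (hbN : b < N) :
    boxE b ∪ Finset.univ.biUnion (WW b w N) = XV b w N ∪ XH b w N := by
  have h1 : (w:ℤ) ≤ b := by exact_mod_cast hwb
  have h2 : (b:ℤ) < N := by exact_mod_cast hbN
  ext ⟨x, y, t⟩
  simp only [Finset.mem_union, Finset.mem_biUnion, Finset.mem_univ, true_and]
  constructor
  · rintro (h | ⟨i, hi⟩)
    · left; unfold XV; exact Finset.mem_union_left _ h
    · fin_cases i
      · simp only [WW, Finset.mem_sdiff, DS, Finset.mem_union] at hi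
        left; unfold XV; refine Finset.mem_union_right _ ?_
        rcases hi.1 with h | h
        · exact absurd h hi.2
        · cases t
          · simp only [mem_RE_false] at h ⊢; omega
          · simp only [mem_RE_true] at h ⊢; omega
      · simp only [WW, Finset.mem_sdiff, DN, Finset.mem_union] at hi
        left; unfold XV; refine Finset.mem_union_right _ ?_
        rcases hi.1 with h | h
        · exact absurd h hi.2
        · cases t
          · simp only [mem_RE_false] at h ⊢; omega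
          · simp only [mem_RE_true] at h ⊢; omega
      · simp only [WW, Finset.mem_sdiff, DE, Finset.mem_union] at hi
        right; unfold XH; refine Finset.mem_union_right _ ?_
        rcases hi.1 with h | h
        · exact absurd h hi.2
        · cases t
          · simp only [mem_RE_false] at h ⊢; omega
          · simp only [mem_RE_true] at h ⊢; omega
      · simp only [WW, Finset.mem_sdiff, DW, Finset.mem_union] at hi
        right; unfold XH; refine Finset.mem_union_right _ ?_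
        rcases hi.1 with h | h
        · exact absurd h hi.2
        · cases t
          · simp only [mem_RE_false] at h ⊢; omega
          · simp only [mem_RE_true] at h ⊢; omega
  · intro h
    by_cases hb : ((x, y, t) : Edg) ∈ boxE b
    · exact Or.inl hb
    · right
      rcases h with h | h
      · unfold XV at h
        rcases Finset.mem_union.1 h with h | h
        · exact absurd h hb
        · by_cases hy : y < 0
          · refine ⟨0, ?_⟩
            simp only [WW, Finset.mem_sdiff, DS, Finset.mem_union]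
            refine ⟨Or.inr ?_, hb⟩
            unfold boxE at hb
            cases t
            · simp only [mem_RE_false] at h hb ⊢; omega
            · simp only [mem_RE_true] at h hb ⊢; omega
          · refine ⟨1, ?_⟩
            simp only [WW, Finset.mem_sdiff, DN, Finset.mem_union]
            refine ⟨Or.inr ?_, hb⟩
            unfold boxE at hb
            cases t
            · simp only [mem_RE_false] at h hb ⊢; omega
            · simp only [mem_RE_true] at h hb ⊢; omega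
      · unfold XH at h
        rcases Finset.mem_union.1 h with h | h
        · exact absurd h hb
        · by_cases hx : x < 0
          · refine ⟨3, ?_⟩
            simp only [WW, Finset.mem_sdiff, DW, Finset.mem_union]
            refine ⟨Or.inr ?_, hb⟩
            unfold boxE at hb
            cases t
            · simp only [mem_RE_false] at h hb ⊢; omega
            · simp only [mem_RE_true] at h hb ⊢; omega
          · refine ⟨2, ?_⟩
            simp only [WW, Finset.mem_sdiff, DE, Finset.mem_union]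
            refine ⟨Or.inr ?_, hb⟩
            unfold boxE at hb
            cases t
            · simp only [mem_RE_false] at h hb ⊢; omega
            · simp only [mem_RE_true] at h hb ⊢; omega

/-- level of the plaquette of `e` -/
def rOf (M : ℕ) (γ : Bool) : ℕ := if γ then M else M - 1
/-- vertical offset of the embedding -/
def rhoOf (M : ℕ) (β γ : Bool) : ℤ := (rOf M γ : ℤ) + (if β then 0 else 1)

theorem fV_t0 (n r : ℕ) : fV n r (0, 0) = ((n:ℤ), r) := by
  unfold fV; simp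
theorem fV_t1 (n r : ℕ) : fV n r (1, 0) = ((n:ℤ) + 1, r + 1) := by
  unfold fV
  refine Prod.ext ?_ ?_
  · simp only; ring
  · simp only; omega
theorem fD_t0 (n r : ℕ) : fD n r (0, 0) = ((n:ℤ) + 1, r) := by
  unfold fD; simp
theorem fD_t1 (n r : ℕ) : fD n r (0, -1) = ((n:ℤ), r + 1) := by
  unfold fD
  refine Prod.ext ?_ ?_
  · simp only; ring
  · simp only; omega
theorem fV_f0 (n r : ℕ) : fV n ((r:ℤ) + 1) (0, 0) = ((n:ℤ), r + 1) := by
  unfold fV
  refine Prod.ext ?_ ?_
  · simp only; ring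
  · simp only; omega
theorem fV_f1 (n r : ℕ) : fV n ((r:ℤ) + 1) (0, 1) = ((n:ℤ) + 1, r) := by
  unfold fV
  refine Prod.ext ?_ ?_
  · simp only; ring
  · simp only; omega
theorem fD_f0 (n r : ℕ) : fD n ((r:ℤ) + 1) (0, 0) = ((n:ℤ) + 1, r + 1) := by
  unfold fD
  refine Prod.ext ?_ ?_
  · simp only; ring
  · simp only; omega
theorem fD_f1 (n r : ℕ) : fD n ((r:ℤ) + 1) (-1, 0) = ((n:ℤ), r) := by
  unfold fD
  refine Prod.ext ?_ ?_
  · simp only; ring
  · simp only; omega

/-- the states of the two plaquettes -/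
theorem C8_state_e {n : ℕ} {M : ℕ} {β γ : Bool} {U : Finset Edg} {C : Finset (Pq n)}
    (he : e0 β ∈ U) (h : e0 β ∈ pull n (rhoOf M β γ) U C ↔ γ = !β) :
    st C (rOf M γ) (izx (2 * n) n) = γ := by
  have h1 : pE n (rhoOf M β γ) (e0 β) = (rOf M γ, izx (2 * n) n) := by
    unfold pE rhoOf e0
    cases β
    · refine Prod.ext ?_ ?_
      · simp
      · simp
    · refine Prod.ext ?_ ?_
      · simp
      · simp
  unfold pull pullF at h
  rw [Finset.mem_filter, h1] at h
  unfold st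
  by_cases hC : (rOf M γ, izx (2 * n) n) ∈ C
  · cases β <;> cases γ <;> simp_all [e0]
  · cases β <;> cases γ <;> simp_all [e0]

theorem C8_state_g {n : ℕ} {M : ℕ} {β γ : Bool} {U : Finset Edg} {C : Finset (Pq n)}
    (he : gE β ∈ U) (h : gE β ∈ pull n (rhoOf M β γ) U C ↔ γ = β) :
    st C (rOf M γ) (izx (2 * n) ((n:ℤ) + 1)) = γ := by
  have h1 : pE n (rhoOf M β γ) (gE β) = (rOf M γ, izx (2 * n) ((n:ℤ) + 1)) := by
    unfold pE rhoOf gE
    cases β
    · refine Prod.ext ?_ ?_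
      · simp
      · simp only [Bool.false_eq_true, if_false]; congr 1; ring
    · refine Prod.ext ?_ ?_
      · simp only [if_true, Bool.false_eq_true, if_false]; omega
      · simp only [if_true]; congr 1; ring
  unfold pull pullF at h
  rw [Finset.mem_filter, h1] at h
  unfold st
  by_cases hC : (rOf M γ, izx (2 * n) ((n:ℤ) + 1)) ∈ C
  · cases β <;> cases γ <;> simp_all [gE]
  · cases β <;> cases γ <;> simp_all [gE]

theorem C8_det {b w n N M : ℕ} (h : Sz b w n N) (hM : N + b + 6 ≤ M) (β γ : Bool)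
    {p p' q q' : Vtx} (hE : Ends (e0 β) p p' q q') {U : Finset Edg}
    (hU : XV b w N ∪ XH b w N ⊆ U) {C : Finset (Pq n)}
    (hA : ∀ i, AA b w N β γ p p' q q' i (pull n (rhoOf M β γ) U C)) (σ τ : Pat (2 * n + 1)) :
    P4 (izx (2 * n) n) (izx (2 * n) (n + 1)) (rows (2 * n) (st C) M σ)
      (rows (2 * n) (upr M (st C)) M τ) := by
  have hM' : (N:ℤ) + b + 6 ≤ M := by exact_mod_cast hM
  have hL : Lv b w n N M (rhoOf M β γ) := by
    refine ⟨h, ?_, ?_⟩ <;> unfold rhoOf rOf <;> cases β <;> cases γ <;>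
      simp only [Bool.false_eq_true, if_false, if_true] <;> omega
  have eU : e0 β ∈ U := hU (Finset.mem_union_left _ (by
    unfold XV; exact Finset.mem_union_left _ (C8_e_mem h.b2 β)))
  have gU : gE β ∈ U := hU (Finset.mem_union_left _ (by
    unfold XV; exact Finset.mem_union_left _ (C8_g_mem h.b2 β)))
  have a0 := hA 0
  have a1 := hA 1
  have a2 := hA 2
  have a3 := hA 3
  simp only [AA] at a0 a1 a2 a3
  obtain ⟨a0, ag, ae⟩ := a0
  have s1 := C8_state_e eU ae
  have s2 := C8_state_g gU ag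
  have bd : (|p.1| ≤ 1 ∧ |p.2| ≤ 1) ∧ (|p'.1| ≤ 1 ∧ |p'.2| ≤ 1) ∧ (|q.1| ≤ 1 ∧ |q.2| ≤ 1) ∧
      (|q'.1| ≤ 1 ∧ |q'.2| ≤ 1) := by
    obtain ⟨h1 | h1, h2 | h2⟩ := hE <;> obtain ⟨rfl, rfl⟩ := h1 <;> obtain ⟨rfl, rfl⟩ := h2 <;>
      cases β <;> simp [e0, src, tgt, dsrc, dtgt]
  have h1 := meet_SE hL hU bd.1 bd.2.2.1 a0 a2
  have h2 := meet_NW hL hU bd.2.1 bd.2.2.2 a1 a3
  have hr : (rOf M γ = M ∧ st C (rOf M γ) (izx (2 * n) n) = true ∧
        st C (rOf M γ) (izx (2 * n) (n + 1)) = true) ∨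
      (rOf M γ + 1 = M ∧ st C (rOf M γ) (izx (2 * n) n) = false ∧
        st C (rOf M γ) (izx (2 * n) (n + 1)) = false) := by
    cases γ
    · right; refine ⟨?_, s1, s2⟩
      unfold rOf; simp only [Bool.false_eq_true, if_false]; omega
    · left; refine ⟨?_, s1, s2⟩
      unfold rOf; simp
  refine P4_of_corners (by omega) (st C) (rOf M γ) hr (fV n (rhoOf M β γ) p)
    (fV n (rhoOf M β γ) p') (fD n (rhoOf M β γ) q) (fD n (rhoOf M β γ) q') ?_ h1 h2 σ τ
  cases β
  · right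
    have e1 : rhoOf M false γ = (rOf M γ : ℤ) + 1 := by unfold rhoOf; simp
    rw [e1]
    obtain ⟨k1, k2⟩ := hE
    constructor
    · rcases k2 with ⟨rfl, rfl⟩ | ⟨rfl, rfl⟩
      · left; exact ⟨fD_f1 n _, fD_f0 n _⟩
      · right; exact ⟨fD_f0 n _, fD_f1 n _⟩
    · rcases k1 with ⟨rfl, rfl⟩ | ⟨rfl, rfl⟩
      · right; exact ⟨fV_f0 n _, fV_f1 n _⟩
      · left; exact ⟨fV_f1 n _, fV_f0 n _⟩
  · left
    have e1 : rhoOf M true γ = (rOf M γ : ℤ) := by unfold rhoOf; simp
    rw [e1]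
    obtain ⟨k1, k2⟩ := hE
    constructor
    · rcases k1 with ⟨rfl, rfl⟩ | ⟨rfl, rfl⟩
      · left; exact ⟨fV_t0 n _, fV_t1 n _⟩
      · right; exact ⟨fV_t1 n _, fV_t0 n _⟩
    · rcases k2 with ⟨rfl, rfl⟩ | ⟨rfl, rfl⟩
      · right; exact ⟨fD_t1 n _, fD_t0 n _⟩
      · left; exact ⟨fD_t0 n _, fD_t1 n _⟩

theorem WW_zero (b w N : ℕ) : boxE b ∪ WW b w N 0 = DS b w N := by
  unfold WW DS; simp
theorem WW_one (b w N : ℕ) : boxE b ∪ WW b w N 1 = DN b w N := by
  unfold WW DN; simp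
theorem WW_two (b w N : ℕ) : boxE b ∪ WW b w N 2 = DE b w N := by
  unfold WW DE; simp
theorem WW_three (b w N : ℕ) : boxE b ∪ WW b w N 3 = DW b w N := by
  unfold WW DW; simp

theorem C8_loc {b w N : ℕ} (hb : 2 ≤ b) (β γ : Bool) (p p' q q' : Vtx) (i : Fin 4)
    (F : Finset Edg) :
    AA b w N β γ p p' q q' i F ↔ AA b w N β γ p p' q q' i (F ∩ (boxE b ∪ WW b w N i)) := by
  have hc : ∀ D : Finset Edg, (↑F : Set Edg) ∩ ↑D = ↑(F ∩ D) ∩ ↑D := by
    intro D; ext x; simp only [Finset.coe_inter, Set.mem_inter_iff]; tauto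
  fin_cases i
  · show (ArmS b w N (e0 β) p ↑F ∧ (gE β ∈ F ↔ γ = β) ∧ (e0 β ∈ F ↔ γ = !β)) ↔
      (ArmS b w N (e0 β) p ↑(F ∩ (boxE b ∪ WW b w N 0)) ∧
        (gE β ∈ F ∩ (boxE b ∪ WW b w N 0) ↔ γ = β) ∧
        (e0 β ∈ F ∩ (boxE b ∪ WW b w N 0) ↔ γ = !β))
    rw [WW_zero]
    have hg : gE β ∈ DS b w N := Finset.mem_union_left _ (C8_g_mem hb β)
    have he : e0 β ∈ DS b w N := Finset.mem_union_left _ (C8_e_mem hb β)
    rw [ArmS_loc (hc (DS b w N))]
    simp only [Finset.mem_inter, hg, he, and_true]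
  · show ArmN b w N (e0 β) p' ↑F ↔ ArmN b w N (e0 β) p' ↑(F ∩ (boxE b ∪ WW b w N 1))
    rw [WW_one]; exact ArmN_loc (hc _)
  · show ArmE b w N (e0 β) q ↑F ↔ ArmE b w N (e0 β) q ↑(F ∩ (boxE b ∪ WW b w N 2))
    rw [WW_two]; exact ArmE_loc (hc _)
  · show ArmW b w N (e0 β) q' ↑F ↔ ArmW b w N (e0 β) q' ↑(F ∩ (boxE b ∪ WW b w N 3))
    rw [WW_three]; exact ArmW_loc (hc _)

theorem C8_mon {b w N : ℕ} (hb : 2 ≤ b) (β γ : Bool) (p p' q q' : Vtx) (i : Fin 4)
    (F F' : Finset Edg) (hZ : F ∩ boxE b = F' ∩ boxE b)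
    (hFF : if (![true, true, false, false] : Fin 4 → Bool) i then F ⊆ F' else F' ⊆ F)
    (h : AA b w N β γ p p' q q' i F) : AA b w N β γ p p' q q' i F' := by
  fin_cases i
  · have hFF' : F ⊆ F' := by simpa using hFF
    obtain ⟨h1, h2, h3⟩ := (h : ArmS b w N (e0 β) p ↑F ∧ (gE β ∈ F ↔ γ = β) ∧
      (e0 β ∈ F ↔ γ = !β))
    have hg := C8_g_mem hb β
    have he := C8_e_mem hb β
    have e1 : (gE β ∈ F ↔ gE β ∈ F') := by
      have := congrArg (fun S => gE β ∈ S) hZ
      simpa [hg] using this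
    have e2 : (e0 β ∈ F ↔ e0 β ∈ F') := by
      have := congrArg (fun S => e0 β ∈ S) hZ
      simpa [he] using this
    refine (?_ : ArmS b w N (e0 β) p ↑F' ∧ (gE β ∈ F' ↔ γ = β) ∧ (e0 β ∈ F' ↔ γ = !β))
    refine ⟨?_, e1.symm.trans h2, e2.symm.trans h3⟩
    obtain ⟨u, hu, hr⟩ := h1
    refine ⟨u, hu, hr.mono ?_⟩
    exact Set.diff_subset_diff_left (Set.inter_subset_inter_left _ (by exact_mod_cast hFF'))
  · have hFF' : F ⊆ F' := by simpa using hFF
    obtain ⟨u, hu, hr⟩ := (h : ArmN b w N (e0 β) p' ↑F)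
    refine (?_ : ArmN b w N (e0 β) p' ↑F')
    refine ⟨u, hu, hr.mono ?_⟩
    exact Set.diff_subset_diff_left (Set.inter_subset_inter_left _ (by exact_mod_cast hFF'))
  · have hFF' : F' ⊆ F := by simpa using hFF
    obtain ⟨u, hu, hr⟩ := (h : ArmE b w N (e0 β) q ↑F)
    refine (?_ : ArmE b w N (e0 β) q ↑F')
    refine ⟨u, hu, hr.mono ?_⟩
    exact Set.diff_subset_diff_left (Set.diff_subset_diff_right (by exact_mod_cast hFF'))
  · have hFF' : F' ⊆ F := by simpa using hFF
    obtain ⟨u, hu, hr⟩ := (h : ArmW b w N (e0 β) q' ↑F)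
    refine (?_ : ArmW b w N (e0 β) q' ↑F')
    refine ⟨u, hu, hr.mono ?_⟩
    exact Set.diff_subset_diff_left (Set.diff_subset_diff_right (by exact_mod_cast hFF'))

theorem C8_AA {b w n N : ℕ} (h : Sz b w n N) (β γ : Bool) {p p' q q' : Vtx}
    (hE : Ends (e0 β) p p' q q') :
    Pr (fun _ => 1/2) (XV b w N ∪ XH b w N) (fun F => ∀ i, AA b w N β γ p p' q q' i F)
      ≤ p4val n := by
  have hbN : b < N := by have := h.hN; have := h.bn; omega
  set M : ℕ := N + b + 6 with hM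
  have hM' : (M:ℤ) = N + b + 6 := by rw [hM]; push_cast; ring
  set ρ := rhoOf M β γ with hρ
  have hL : Lv b w n N M ρ := by
    refine ⟨h, ?_, ?_⟩ <;> rw [hρ] <;> unfold rhoOf rOf <;> cases β <;> cases γ <;>
      simp only [Bool.false_eq_true, if_false, if_true] <;> omega
  have hcov := C8_cover (b := b) (w := w) (N := N) h.wb hbN
  obtain ⟨i0, i1, i2, i3⟩ := geo_inj hL
  have key := transport (boxE b) (WW b w N) (LamP n M) (pE n ρ) (fun e => !e.2.2)
    (![true, true, false, false]) (AA b w N β γ p p' q q')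
    (by
      intro i; rw [Finset.disjoint_left]; intro x hx hx'
      fin_cases i <;> exact (Finset.mem_sdiff.1 hx').2 hx)
    (by
      have k1 : (w:ℤ) ≤ b := by exact_mod_cast h.wb
      have k2 : (b:ℤ) < N := by exact_mod_cast hbN
      intro i j hij; rw [Finset.disjoint_left]
      rintro ⟨x, y, t⟩ hx hx'
      fin_cases i <;> fin_cases j <;>
        first
        | exact hij rfl
        | (simp only [WW, Finset.mem_sdiff, DS, DN, DE, DW, Finset.mem_union, boxE] at hx hx'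
           obtain ⟨hx1, hx2⟩ := hx
           obtain ⟨hx3, -⟩ := hx'
           cases t <;> simp only [mem_RE_true, mem_RE_false] at hx1 hx2 hx3 <;> omega))
    (by rw [hcov]; exact geo_mem hL)
    (by
      intro i
      fin_cases i
      · show Set.InjOn (pE n ρ) ↑(boxE b ∪ WW b w N 0)
        rw [WW_zero]; exact i0
      · show Set.InjOn (pE n ρ) ↑(boxE b ∪ WW b w N 1)
        rw [WW_one]; exact i1
      · show Set.InjOn (pE n ρ) ↑(boxE b ∪ WW b w N 2)
        rw [WW_two]; exact i2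
      · show Set.InjOn (pE n ρ) ↑(boxE b ∪ WW b w N 3)
        rw [WW_three]; exact i3)
    (by
      intro i j e e' he he' hij hπ
      have hmem : ∀ k x, x ∈ WW b w N k → x ∈ XV b w N ∪ XH b w N := by
        intro k x hx; rw [← hcov]
        exact Finset.mem_union_right _ (Finset.mem_biUnion.2 ⟨k, Finset.mem_univ _, hx⟩)
      by_cases hee : e = e'
      · exfalso
        subst hee
        have k1 : (w:ℤ) ≤ b := by exact_mod_cast h.wb
        have k2 : (b:ℤ) < N := by exact_mod_cast hbN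
        obtain ⟨x, y, t⟩ := e
        fin_cases i <;> fin_cases j <;>
          first
          | exact hij rfl
          | (simp only [WW, Finset.mem_sdiff, DS, DN, DE, DW, Finset.mem_union, boxE] at he he'
             obtain ⟨hx1, hx2⟩ := he
             obtain ⟨hx3, -⟩ := he'
             cases t <;> simp only [mem_RE_true, mem_RE_false] at hx1 hx2 hx3 <;> omega)
      · obtain ⟨g1, g2⟩ := geo_col hL (hmem i e he) (hmem j e' he') hee hπ
        have hs : ¬ ((!e.2.2) = (!e'.2.2)) := by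
          intro hh; apply g1; revert hh; cases e.2.2 <;> cases e'.2.2 <;> simp
        have k1 : (w:ℤ) ≤ b := by exact_mod_cast h.wb
        have k2 : (b:ℤ) < N := by exact_mod_cast hbN
        have hV : ∀ x : Edg, x ∈ XV b w N \ boxE b → ∀ k, x ∈ WW b w N k → k = 0 ∨ k = 1 := by
          rintro ⟨x, y, t⟩ hx k hk
          by_contra hc
          push Not at hc
          fin_cases k
          · exact hc.1 rfl
          · exact hc.2 rfl
          · simp only [WW, Finset.mem_sdiff, DE, XV, Finset.mem_union, boxE] at hx hk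
            obtain ⟨hx1, hx2⟩ := hx
            obtain ⟨hx3, -⟩ := hk
            cases t <;> simp only [mem_RE_true, mem_RE_false] at hx1 hx2 hx3 <;> omega
          · simp only [WW, Finset.mem_sdiff, DW, XV, Finset.mem_union, boxE] at hx hk
            obtain ⟨hx1, hx2⟩ := hx
            obtain ⟨hx3, -⟩ := hk
            cases t <;> simp only [mem_RE_true, mem_RE_false] at hx1 hx2 hx3 <;> omega
        have hH : ∀ x : Edg, x ∈ XH b w N \ boxE b → ∀ k, x ∈ WW b w N k → k = 2 ∨ k = 3 := by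
          rintro ⟨x, y, t⟩ hx k hk
          by_contra hc
          push Not at hc
          fin_cases k
          · simp only [WW, Finset.mem_sdiff, DS, XH, Finset.mem_union, boxE] at hx hk
            obtain ⟨hx1, hx2⟩ := hx
            obtain ⟨hx3, -⟩ := hk
            cases t <;> simp only [mem_RE_true, mem_RE_false] at hx1 hx2 hx3 <;> omega
          · simp only [WW, Finset.mem_sdiff, DN, XH, Finset.mem_union, boxE] at hx hk
            obtain ⟨hx1, hx2⟩ := hx
            obtain ⟨hx3, -⟩ := hk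
            cases t <;> simp only [mem_RE_true, mem_RE_false] at hx1 hx2 hx3 <;> omega
          · exact hc.1 rfl
          · exact hc.2 rfl
        have hd : ¬ ((![true, true, false, false] : Fin 4 → Bool) i =
            (![true, true, false, false] : Fin 4 → Bool) j) := by
          rcases g2 with ⟨g2, g3⟩ | ⟨g2, g3⟩
          · rcases hV e g2 i he with rfl | rfl <;> rcases hH e' g3 j he' with rfl | rfl <;> simp
          · rcases hH e g2 i he with rfl | rfl <;> rcases hV e' g3 j he' with rfl | rfl <;> simp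
        exact ⟨fun hh => absurd hh hs, fun hh => absurd hh hd⟩)
    (by intro i F; exact C8_loc h.b2 β γ p p' q q' i F)
    (by
      intro i F F' _ _ hZ hFF hh
      exact C8_mon h.b2 β γ p p' q q' i F F' hZ hFF hh)
  rw [hcov] at key
  refine key.trans (Pr_le_p4val' n M (by have := h.bn; omega) _ ?_)
  intro C _ hC σ τ
  exact C8_det h hM.ge β γ hE (Finset.Subset.refl _) hC σ τ

theorem C8_erase {b w N : ℕ} (hb : 2 ≤ b) (β : Bool) (p p' q q' : Vtx) (P : Prop)
    {U : Finset Edg} (F : Finset Edg) (hF : F ⊆ U) :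
    (ArmS b w N (e0 β) p ↑F ∧ ArmN b w N (e0 β) p' ↑F ∧
      ArmE b w N (e0 β) q ↑F ∧ ArmW b w N (e0 β) q' ↑F ∧ (gE β ∈ F ↔ P)) ↔
    (ArmS b w N (e0 β) p ↑(F ∩ U.erase (e0 β)) ∧ ArmN b w N (e0 β) p' ↑(F ∩ U.erase (e0 β)) ∧
      ArmE b w N (e0 β) q ↑(F ∩ U.erase (e0 β)) ∧ ArmW b w N (e0 β) q' ↑(F ∩ U.erase (e0 β)) ∧
      (gE β ∈ F ∩ U.erase (e0 β) ↔ P)) := by
  have h1 : (↑F : Set Edg) \ {e0 β} = (↑(F ∩ U.erase (e0 β)) : Set Edg) \ {e0 β} := by
    ext x
    simp only [Set.mem_diff, Finset.mem_coe, Set.mem_singleton_iff, Finset.mem_inter,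
      Finset.mem_erase]
    constructor
    · rintro ⟨h2, h3⟩; exact ⟨⟨h2, h3, hF h2⟩, h3⟩
    · rintro ⟨⟨h2, -⟩, h3⟩; exact ⟨h2, h3⟩
  have h2 : gE β ∈ F ↔ gE β ∈ F ∩ U.erase (e0 β) := by
    have h3 : gE β ≠ e0 β := by cases β <;> simp [gE, e0]
    simp only [Finset.mem_inter, Finset.mem_erase, ne_eq, h3, not_false_eq_true, true_and]
    exact ⟨fun h => ⟨h, hF h⟩, fun h => h.1⟩
  rw [ArmS_erase h1, ArmN_erase h1, ArmE_erase h1, ArmW_erase h1, h2]

theorem arms_le {b w n N : ℕ} (h : Sz b w n N) (β : Bool) {p p' q q' : Vtx}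
    (hE : Ends (e0 β) p p' q q') {S : Finset Edg} (hS : XV b w N ∪ XH b w N ⊆ S) :
    Pr (fun _ => 1/2) S (fun F => ArmS b w N (e0 β) p ↑F ∧ ArmN b w N (e0 β) p' ↑F ∧
      ArmE b w N (e0 β) q ↑F ∧ ArmW b w N (e0 β) q' ↑F) ≤ 4 * p4val n := by
  set U := XV b w N ∪ XH b w N with hU
  have hbN : b < N := by have := h.hN; have := h.bn; omega
  have k1 : (w:ℤ) ≤ b := by exact_mod_cast h.wb
  have k2 : (b:ℤ) < N := by exact_mod_cast hbN
  have sS : DS b w N ⊆ U := by
    intro x hx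
    rw [hU, ← C8_cover h.wb hbN, Finset.mem_union]
    rw [← WW_zero, Finset.mem_union] at hx
    exact hx.imp id (fun hx => Finset.mem_biUnion.2 ⟨0, Finset.mem_univ _, hx⟩)
  have sN : DN b w N ⊆ U := by
    intro x hx
    rw [hU, ← C8_cover h.wb hbN, Finset.mem_union]
    rw [← WW_one, Finset.mem_union] at hx
    exact hx.imp id (fun hx => Finset.mem_biUnion.2 ⟨1, Finset.mem_univ _, hx⟩)
  have sE : DE b w N ⊆ U := by
    intro x hx
    rw [hU, ← C8_cover h.wb hbN, Finset.mem_union]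
    rw [← WW_two, Finset.mem_union] at hx
    exact hx.imp id (fun hx => Finset.mem_biUnion.2 ⟨2, Finset.mem_univ _, hx⟩)
  have sW : DW b w N ⊆ U := by
    intro x hx
    rw [hU, ← C8_cover h.wb hbN, Finset.mem_union]
    rw [← WW_three, Finset.mem_union] at hx
    exact hx.imp id (fun hx => Finset.mem_biUnion.2 ⟨3, Finset.mem_univ _, hx⟩)
  have eU : e0 β ∈ U := sS (Finset.mem_union_left _ (C8_e_mem h.b2 β))
  have hloc : ∀ (F : Finset Edg) (D : Finset Edg), D ⊆ U →
      (↑F : Set Edg) ∩ ↑D = ↑(F ∩ U) ∩ ↑D := by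
    intro F D hD; ext x
    simp only [Set.mem_inter_iff, Finset.mem_coe, Finset.mem_inter]
    exact ⟨fun hx => ⟨⟨hx.1, hD hx.2⟩, hx.2⟩, fun hx => ⟨hx.1.1, hx.2⟩⟩
  rw [Pr_local (S' := U) hS (by
    intro F _
    rw [ArmS_loc (hloc F _ sS), ArmN_loc (hloc F _ sN), ArmE_loc (hloc F _ sE),
      ArmW_loc (hloc F _ sW)])]
  have hsplit : Pr (fun _ => 1/2) U (fun F => ArmS b w N (e0 β) p ↑F ∧ ArmN b w N (e0 β) p' ↑F ∧
      ArmE b w N (e0 β) q ↑F ∧ ArmW b w N (e0 β) q' ↑F) ≤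
      Pr (fun _ => 1/2) U (fun F => ArmS b w N (e0 β) p ↑F ∧ ArmN b w N (e0 β) p' ↑F ∧
        ArmE b w N (e0 β) q ↑F ∧ ArmW b w N (e0 β) q' ↑F ∧ (gE β ∈ F ↔ true = β)) +
      Pr (fun _ => 1/2) U (fun F => ArmS b w N (e0 β) p ↑F ∧ ArmN b w N (e0 β) p' ↑F ∧
        ArmE b w N (e0 β) q ↑F ∧ ArmW b w N (e0 β) q' ↑F ∧ (gE β ∈ F ↔ false = β)) := by
    refine le_trans ?_ (Pr_or_le C8_ok U _ _)
    apply Pr_mono C8_ok
    rintro F - ⟨h1, h2, h3, h4⟩
    by_cases hg : gE β ∈ F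
    · cases β
      · right; exact ⟨h1, h2, h3, h4, by simpa using hg⟩
      · left; exact ⟨h1, h2, h3, h4, by simpa using hg⟩
    · cases β
      · left; exact ⟨h1, h2, h3, h4, by simpa using hg⟩
      · right; exact ⟨h1, h2, h3, h4, by simpa using hg⟩
  have hone : ∀ γ : Bool, Pr (fun _ => 1/2) U (fun F => ArmS b w N (e0 β) p ↑F ∧
      ArmN b w N (e0 β) p' ↑F ∧ ArmE b w N (e0 β) q ↑F ∧ ArmW b w N (e0 β) q' ↑F ∧
      (gE β ∈ F ↔ γ = β)) ≤ 2 * p4val n := by
    intro γ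
    have h1 := C8_bit eU (A := fun F => ArmS b w N (e0 β) p ↑F ∧
      ArmN b w N (e0 β) p' ↑F ∧ ArmE b w N (e0 β) q ↑F ∧ ArmW b w N (e0 β) q' ↑F ∧
      (gE β ∈ F ↔ γ = β)) (fun F hF => C8_erase h.b2 β p p' q q' _ F hF) (γ = !β)
    have h2 := C8_AA h β γ hE
    have h3 : Pr (fun _ => 1/2) U (fun F => (ArmS b w N (e0 β) p ↑F ∧
      ArmN b w N (e0 β) p' ↑F ∧ ArmE b w N (e0 β) q ↑F ∧ ArmW b w N (e0 β) q' ↑F ∧
      (gE β ∈ F ↔ γ = β)) ∧ (e0 β ∈ F ↔ γ = !β)) ≤
      Pr (fun _ => 1/2) U (fun F => ∀ i, AA b w N β γ p p' q q' i F) := by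
      apply Pr_mono C8_ok
      rintro F - ⟨⟨g1, g2, g3, g4, g5⟩, g6⟩ i
      fin_cases i
      · exact ⟨g1, g5, g6⟩
      · exact g2
      · exact g3
      · exact g4
    linarith
  have h1 := hone true
  have h2 := hone false
  linarith

theorem plus_le {b w n N : ℕ} (h : Sz b w n N) (β : Bool) {S : Finset Edg}
    (hS : XV b w N ∪ XH b w N ⊆ S) :
    Pr (fun _ => 1/2) S (fun F => Plus b w N (e0 β) ↑F) ≤ 16 * p4val n := by
  have hbN : b < N := by have := h.hN; have := h.bn; omega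
  have hE : ∀ i j : Bool, Ends (e0 β) (if i then src (e0 β) else tgt (e0 β))
      (if i then tgt (e0 β) else src (e0 β)) (if j then dsrc (e0 β) else dtgt (e0 β))
      (if j then dtgt (e0 β) else dsrc (e0 β)) := by
    intro i j; unfold Ends; cases i <;> cases j <;> simp
  have key : ∀ i j : Bool, Pr (fun _ => 1/2) S (fun F =>
      ArmS b w N (e0 β) (if i then src (e0 β) else tgt (e0 β)) ↑F ∧
      ArmN b w N (e0 β) (if i then tgt (e0 β) else src (e0 β)) ↑F ∧
      ArmE b w N (e0 β) (if j then dsrc (e0 β) else dtgt (e0 β)) ↑F ∧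
      ArmW b w N (e0 β) (if j then dtgt (e0 β) else dsrc (e0 β)) ↑F) ≤ 4 * p4val n :=
    fun i j => arms_le h β (hE i j) hS
  have hsub : Pr (fun _ => 1/2) S (fun F => Plus b w N (e0 β) ↑F) ≤
      Pr (fun _ => 1/2) S (fun F => (ArmS b w N (e0 β) (if true then src (e0 β) else tgt (e0 β)) ↑F ∧
      ArmN b w N (e0 β) (if true then tgt (e0 β) else src (e0 β)) ↑F ∧
      ArmE b w N (e0 β) (if true then dsrc (e0 β) else dtgt (e0 β)) ↑F ∧
      ArmW b w N (e0 β) (if true then dtgt (e0 β) else dsrc (e0 β)) ↑F) ∨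
      (ArmS b w N (e0 β) (if true then src (e0 β) else tgt (e0 β)) ↑F ∧
      ArmN b w N (e0 β) (if true then tgt (e0 β) else src (e0 β)) ↑F ∧
      ArmE b w N (e0 β) (if false then dsrc (e0 β) else dtgt (e0 β)) ↑F ∧
      ArmW b w N (e0 β) (if false then dtgt (e0 β) else dsrc (e0 β)) ↑F) ∨
      (ArmS b w N (e0 β) (if false then src (e0 β) else tgt (e0 β)) ↑F ∧
      ArmN b w N (e0 β) (if false then tgt (e0 β) else src (e0 β)) ↑F ∧
      ArmE b w N (e0 β) (if true then dsrc (e0 β) else dtgt (e0 β)) ↑F ∧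
      ArmW b w N (e0 β) (if true then dtgt (e0 β) else dsrc (e0 β)) ↑F) ∨
      (ArmS b w N (e0 β) (if false then src (e0 β) else tgt (e0 β)) ↑F ∧
      ArmN b w N (e0 β) (if false then tgt (e0 β) else src (e0 β)) ↑F ∧
      ArmE b w N (e0 β) (if false then dsrc (e0 β) else dtgt (e0 β)) ↑F ∧
      ArmW b w N (e0 β) (if false then dtgt (e0 β) else dsrc (e0 β)) ↑F)) := by
    apply Pr_mono C8_ok
    intro F _ hF
    obtain ⟨p, p', q, q', ⟨h1, h2⟩, a1, a2, a3, a4⟩ :=
      plus_arms h.w1 h.wb hbN (C8_e_mem h.b2 β) hF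
    rcases h1 with ⟨rfl, rfl⟩ | ⟨rfl, rfl⟩ <;> rcases h2 with ⟨rfl, rfl⟩ | ⟨rfl, rfl⟩
    · left; exact ⟨a1, a2, a3, a4⟩
    · right; left; exact ⟨a1, a2, a3, a4⟩
    · right; right; left; exact ⟨a1, a2, a3, a4⟩
    · right; right; right; exact ⟨a1, a2, a3, a4⟩
  have o1 := Pr_or_le C8_ok S (fun F => (ArmS b w N (e0 β) (if true then src (e0 β) else tgt (e0 β)) ↑F ∧
      ArmN b w N (e0 β) (if true then tgt (e0 β) else src (e0 β)) ↑F ∧
      ArmE b w N (e0 β) (if true then dsrc (e0 β) else dtgt (e0 β)) ↑F ∧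
      ArmW b w N (e0 β) (if true then dtgt (e0 β) else dsrc (e0 β)) ↑F))
      (fun F => (ArmS b w N (e0 β) (if true then src (e0 β) else tgt (e0 β)) ↑F ∧
      ArmN b w N (e0 β) (if true then tgt (e0 β) else src (e0 β)) ↑F ∧
      ArmE b w N (e0 β) (if false then dsrc (e0 β) else dtgt (e0 β)) ↑F ∧
      ArmW b w N (e0 β) (if false then dtgt (e0 β) else dsrc (e0 β)) ↑F) ∨
      (ArmS b w N (e0 β) (if false then src (e0 β) else tgt (e0 β)) ↑F ∧
      ArmN b w N (e0 β) (if false then tgt (e0 β) else src (e0 β)) ↑F ∧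
      ArmE b w N (e0 β) (if true then dsrc (e0 β) else dtgt (e0 β)) ↑F ∧
      ArmW b w N (e0 β) (if true then dtgt (e0 β) else dsrc (e0 β)) ↑F) ∨
      (ArmS b w N (e0 β) (if false then src (e0 β) else tgt (e0 β)) ↑F ∧
      ArmN b w N (e0 β) (if false then tgt (e0 β) else src (e0 β)) ↑F ∧
      ArmE b w N (e0 β) (if false then dsrc (e0 β) else dtgt (e0 β)) ↑F ∧
      ArmW b w N (e0 β) (if false then dtgt (e0 β) else dsrc (e0 β)) ↑F))
  have o2 := Pr_or_le C8_ok S (fun F => (ArmS b w N (e0 β) (if true then src (e0 β) else tgt (e0 β)) ↑F ∧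
      ArmN b w N (e0 β) (if true then tgt (e0 β) else src (e0 β)) ↑F ∧
      ArmE b w N (e0 β) (if false then dsrc (e0 β) else dtgt (e0 β)) ↑F ∧
      ArmW b w N (e0 β) (if false then dtgt (e0 β) else dsrc (e0 β)) ↑F))
      (fun F => (ArmS b w N (e0 β) (if false then src (e0 β) else tgt (e0 β)) ↑F ∧
      ArmN b w N (e0 β) (if false then tgt (e0 β) else src (e0 β)) ↑F ∧
      ArmE b w N (e0 β) (if true then dsrc (e0 β) else dtgt (e0 β)) ↑F ∧
      ArmW b w N (e0 β) (if true then dtgt (e0 β) else dsrc (e0 β)) ↑F) ∨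
      (ArmS b w N (e0 β) (if false then src (e0 β) else tgt (e0 β)) ↑F ∧
      ArmN b w N (e0 β) (if false then tgt (e0 β) else src (e0 β)) ↑F ∧
      ArmE b w N (e0 β) (if false then dsrc (e0 β) else dtgt (e0 β)) ↑F ∧
      ArmW b w N (e0 β) (if false then dtgt (e0 β) else dsrc (e0 β)) ↑F))
  have o3 := Pr_or_le C8_ok S (fun F => (ArmS b w N (e0 β) (if false then src (e0 β) else tgt (e0 β)) ↑F ∧
      ArmN b w N (e0 β) (if false then tgt (e0 β) else src (e0 β)) ↑F ∧
      ArmE b w N (e0 β) (if true then dsrc (e0 β) else dtgt (e0 β)) ↑F ∧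
      ArmW b w N (e0 β) (if true then dtgt (e0 β) else dsrc (e0 β)) ↑F))
      (fun F => (ArmS b w N (e0 β) (if false then src (e0 β) else tgt (e0 β)) ↑F ∧
      ArmN b w N (e0 β) (if false then tgt (e0 β) else src (e0 β)) ↑F ∧
      ArmE b w N (e0 β) (if false then dsrc (e0 β) else dtgt (e0 β)) ↑F ∧
      ArmW b w N (e0 β) (if false then dtgt (e0 β) else dsrc (e0 β)) ↑F))
  have k1 := key true true
  have k2 := key true false
  have k3 := key false true
  have k4 := key false false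
  linarith

/-- the probability of the plus event is at most `C n^{-5/4}` -/
theorem plus_exponent : ∃ C : ℝ, 0 < C ∧ ∀ (b w n N : ℕ), Sz b w n N → ∀ (β : Bool)
    (S : Finset Edg), XV b w N ∪ XH b w N ⊆ S →
    Pr (fun _ => 1/2) S (fun F => Plus b w N (e0 β) ↑F) ≤ C * (n : ℝ) ^ (-(5 / 4) : ℝ) := by
  obtain ⟨c, C, hc, h⟩ := p4val_bounds
  refine ⟨16 * (|C| + 1), by positivity, ?_⟩
  intro b w n N hs β S hS
  have hn : 1 ≤ n := by have := hs.bn; omega
  have hn' : (0:ℝ) < n := by exact_mod_cast hn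
  have h1 := plus_le hs β hS
  have h2 := (h n hn).2
  have h3 : (2 * (n:ℝ) + 1) ^ (-(5 / 4) : ℝ) ≤ (n:ℝ) ^ (-(5 / 4) : ℝ) := by
    apply Real.rpow_le_rpow_of_nonpos hn' (by linarith) (by norm_num)
  have h4 : (0:ℝ) ≤ (2 * (n:ℝ) + 1) ^ (-(5 / 4) : ℝ) := by positivity
  have h5 : C * (2 * (n:ℝ) + 1) ^ (-(5 / 4) : ℝ) ≤ (|C| + 1) * (n:ℝ) ^ (-(5 / 4) : ℝ) := by
    have : C ≤ |C| + 1 := by linarith [le_abs_self C]
    calc C * (2 * (n:ℝ) + 1) ^ (-(5 / 4) : ℝ) ≤ (|C| + 1) * (2 * (n:ℝ) + 1) ^ (-(5 / 4) : ℝ) :=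
          mul_le_mul_of_nonneg_right this h4
      _ ≤ _ := mul_le_mul_of_nonneg_left h3 (by positivity)
  linarith

end Pool.Agent.H988R5
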