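import Pool.Agent.H988R4.Measure
import Pool.Agent.H988R3.Asym
import Pool.Agent.H973R3.NC.A4L
import Pool.Agent.H988R5.Bit

/-!
# Lower bound for the four-arm probability of an edge at `p = 1/2`:
`c k^{-5/4} ≤ a4 (1/2) k` (helper988)
-/

namespace Pool.Agent.H988R5
open Equiv Finset Pool.Agent.H974R3 Pool.Agent.H988R3 Pool.Agent.H988R4
open H974 hiding SS
open H12S (e0 a4 A4 PQ)

theorem dsrc_dl (e : Edg) : dsrc (dl e) = ((src e).1 - 1, (src e).2 - 1) := by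
  obtain ⟨x, y, _ | _⟩ := e <;> simp

theorem dtgt_dl (e : Edg) : dtgt (dl e) = ((tgt e).1 - 1, (tgt e).2 - 1) := by
  obtain ⟨x, y, _ | _⟩ := e <;> simp

theorem dl_RE {a b c d : ℤ} {e : Edg} (h : e ∈ RE a b c d) : dl e ∈ RE (a - 1) b (c - 1) d := by
  obtain ⟨x, y, _ | _⟩ := e
  · rw [dl_f]; rw [mem_RE_false] at h; rw [mem_RE_true]; omega
  · rw [dl_t]; rw [mem_RE_true] at h; rw [mem_RE_false]; omega

/-- dual arms from both faces of `e` to the outside separate the ends of `e` -/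
theorem sep_primal {a b c d : ℤ} {e : Edg} {K H : Set Edg} (he : e ∈ RE a b c d)
    (hKH : Disjoint K H) (heH : e ∉ H)
    (h1 : ∃ f : Vtx, DReach H (dsrc e) f ∧ (f.1 ≤ a - 1 ∨ b ≤ f.1 ∨ f.2 ≤ c - 1 ∨ d ≤ f.2))
    (h2 : ∃ f : Vtx, DReach H (dtgt e) f ∧ (f.1 ≤ a - 1 ∨ b ≤ f.1 ∨ f.2 ≤ c - 1 ∨ d ≤ f.2)) :
    ¬ Reach ((K ∩ ↑(RE a b c d)) \ {e}) (src e) (tgt e) := by
  intro hr
  have hin : inR (a - 1) b (c - 1) d (dsrc e) ∧ inR (a - 1) b (c - 1) d (dtgt e) := by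
    obtain ⟨x, y, _ | _⟩ := e
    · rw [mem_RE_false] at he
      simp only [dsrc_false, dtgt_mk, inR]; omega
    · rw [mem_RE_true] at he
      simp only [dsrc_true, dtgt_mk, inR]; omega
  have arm : ∀ u : Vtx, inR (a - 1) b (c - 1) d u →
      (∃ f : Vtx, DReach H u f ∧ (f.1 ≤ a - 1 ∨ b ≤ f.1 ∨ f.2 ≤ c - 1 ∨ d ≤ f.2)) →
      ∃ w ∈ bdR (a - 1) b (c - 1) d, Reach ((dl '' H) ∩ ↑(RE (a - 1) b (c - 1) d)) u w := by
    rintro u hu ⟨f, hf1, hf2⟩
    obtain ⟨w, hw1, hw2, hw3⟩ := first_exit hu (reach_dl.mpr hf1) hf2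
    exact ⟨w, ⟨hw1, hw2⟩, hw3⟩
  have k1 := arm _ hin.1 h1
  have k2 := arm _ hin.2 h2
  have heF : dl e ∉ (dl '' H) ∩ ↑(RE (a - 1) b (c - 1) d) := by
    rintro ⟨⟨e', he', heq⟩, -⟩
    rw [dl.injective heq] at he'
    exact heH he'
  have key := dual_sep (F := (dl '' H) ∩ ↑(RE (a - 1) b (c - 1) d)) Set.inter_subset_right
    (dl_RE he) heF (by rw [src_dl]; exact k1) (by rw [tgt_dl]; exact k2)
  apply key
  rw [dsrc_dl, dtgt_dl]
  have : ∀ v, Reach ((K ∩ ↑(RE a b c d)) \ {e}) (src e) v →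
      DReach ((↑(RE (a - 1) b (c - 1) d) \ ((dl '' H) ∩ ↑(RE (a - 1) b (c - 1) d))) \ {dl e})
        ((src e).1 - 1, (src e).2 - 1) (v.1 - 1, v.2 - 1) := by
    intro v hv
    induction hv with
    | refl => exact DReach.refl _ _
    | @tail w w' _ hs ih =>
      obtain ⟨g, ⟨⟨gK, gR⟩, ge⟩, hcase⟩ := hs
      refine ih.trans (DAdj.reach ⟨dl g, ⟨⟨dl_RE gR, ?_⟩, ?_⟩, ?_⟩)
      · rintro ⟨⟨g', hg', heq⟩, -⟩
        rw [dl.injective heq] at hg'
        exact Set.disjoint_left.1 hKH gK hg'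
      · intro heq
        exact ge (dl.injective heq)
      · rw [dsrc_dl, dtgt_dl]
        rcases hcase with ⟨h3, h4⟩ | ⟨h3, h4⟩
        · left; rw [h3, h4]; exact ⟨rfl, rfl⟩
        · right; rw [h3, h4]; exact ⟨rfl, rfl⟩
  exact this _ hr

/-- primal far connection gives a connection to the boundary of a box -/
theorem far_bd {a b c d : ℤ} {n : ℕ} {F : Set Edg} {x : Vtx} (hx : inR a b c d x)
    (hbox : ∀ w : Vtx, (n:ℤ) ≤ |w.1| + |w.2| → w.1 ≤ a ∨ b ≤ w.1 ∨ w.2 ≤ c ∨ d ≤ w.2)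
    (h : FarP n F x) : ∃ w ∈ bdR a b c d, Reach (F ∩ ↑(RE a b c d)) x w := by
  obtain ⟨w, hr, hw⟩ := h
  obtain ⟨w', h1, h2, h3⟩ := first_exit hx hr (hbox w hw)
  exact ⟨w', ⟨h1, h2⟩, h3⟩

theorem V4_cases {n m : ℕ} (hm : 1 ≤ m) (hmn : 2 * m + 4 ≤ n) {F G : Set Edg}
    (hFG : Disjoint F G) (h : V4 n F G) :
    A4 (-m) m (-m) m (0, 0, true) (insert (1, 0, false) F) ∨
      A4 (1 - m) (1 + m) (-m) m (1, 0, false) (insert (0, 0, true) F) := by
  have hm' : (1:ℤ) ≤ m := by exact_mod_cast hm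
  have hmn' : 2 * (m:ℤ) + 4 ≤ n := by exact_mod_cast hmn
  obtain ⟨p1, p2, hd1, hd2⟩ := h
  rcases hd1 with ⟨g1, f1⟩ | ⟨g1, f1⟩
  · left
    have eF : ((0, 0, true) : Edg) ∉ F := fun h => Set.disjoint_left.1 hFG h g1
    have hbox2 : ∀ w : Vtx, (n:ℤ) ≤ |w.1| + |w.2| →
        w.1 ≤ -(m:ℤ) - 1 ∨ (m:ℤ) ≤ w.1 ∨ w.2 ≤ -(m:ℤ) - 1 ∨ (m:ℤ) ≤ w.2 := by
      intro w hw
      rcases abs_cases w.1 with ⟨h1, h2⟩ | ⟨h1, h2⟩ <;>
        rcases abs_cases w.2 with ⟨h3, h4⟩ | ⟨h3, h4⟩ <;> rw [h1, h3] at hw <;> omega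
    have hbox : ∀ w : Vtx, (n:ℤ) ≤ |w.1| + |w.2| →
        w.1 ≤ -(m:ℤ) ∨ (m:ℤ) ≤ w.1 ∨ w.2 ≤ -(m:ℤ) ∨ (m:ℤ) ≤ w.2 := by
      intro w hw
      have := hbox2 w hw
      omega
    refine ⟨?_, ?_, ?_⟩
    · obtain ⟨w, hw, hr⟩ := far_bd (a := -(m:ℤ)) (b := m) (c := -(m:ℤ)) (d := m)
        (x := (0, 0)) ⟨⟨by simp, by simp⟩, by simp, by simp⟩ hbox p1
      refine ⟨w, hw, hr.mono ?_⟩
      rintro x ⟨hx1, hx2⟩
      exact ⟨⟨Set.mem_insert_of_mem _ hx1, hx2⟩, fun hx3 => eF (hx3 ▸ hx1)⟩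
    · obtain ⟨w, hw, hr⟩ := far_bd (a := -(m:ℤ)) (b := m) (c := -(m:ℤ)) (d := m)
        (x := (1, 1)) ⟨⟨by simp only; omega, by simp only; omega⟩, by simp only; omega,
          by simp only; omega⟩ hbox p2
      refine ⟨w, hw, ?_⟩
      have hadj : Adj ((insert ((1, 0, false) : Edg) F ∩ ↑(RE (-(m:ℤ)) m (-(m:ℤ)) m)) \
          {((0, 0, true) : Edg)}) (1, 0) (1, 1) := by
        refine ⟨(1, 0, false), ⟨⟨Set.mem_insert _ _, ?_⟩, by simp⟩, Or.inl ⟨by simp, by simp⟩⟩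
        simp only [Finset.mem_coe, mem_RE_false]; omega
      have : tgt ((0, 0, true) : Edg) = (1, 0) := by simp
      rw [this]
      refine hadj.reach.trans (hr.mono ?_)
      rintro x ⟨hx1, hx2⟩
      exact ⟨⟨Set.mem_insert_of_mem _ hx1, hx2⟩, fun hx3 => eF (hx3 ▸ hx1)⟩
    · apply sep_primal (H := G \ {((0, 0, true) : Edg), ((1, 0, false) : Edg)})
      · simp only [mem_RE_true]; omega
      · rw [Set.disjoint_left]
        rintro x hx ⟨hx1, hx2⟩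
        rcases hx with rfl | hx
        · exact hx2 (by simp)
        · exact Set.disjoint_left.1 hFG hx hx1
      · rintro ⟨-, h⟩; exact h (by simp)
      · obtain ⟨w, hr, hw⟩ := f1
        refine ⟨w, ?_, ?_⟩
        · have : dsrc ((0, 0, true) : Edg) = (0, -1) := by simp
          rw [this]
          refine hr.mono ?_
          rintro x ⟨hx1, hx2⟩
          refine ⟨hx1, fun hx3 => hx2 ?_⟩
          rcases hx3 with rfl | rfl <;> simp [Pool.Agent.H988R4.sq]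
        · exact hbox2 w hw
      · rcases hd2 with ⟨g2, f2⟩ | ⟨g2, f2⟩
        · obtain ⟨w, hr, hw⟩ := f2
          refine ⟨w, ?_, ?_⟩
          · have : dtgt ((0, 0, true) : Edg) = (0, 0) := by simp
            rw [this]
            have hadj : DAdj (G \ {((0, 0, true) : Edg), ((1, 0, false) : Edg)}) (0, 0) (-1, 0) :=
              ⟨(0, 0, false), ⟨g2, by simp⟩, Or.inr ⟨by simp, by simp⟩⟩
            refine hadj.reach.trans (hr.mono ?_)
            rintro x ⟨hx1, hx2⟩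
            refine ⟨hx1, fun hx3 => hx2 ?_⟩
            rcases hx3 with rfl | rfl <;> simp [Pool.Agent.H988R4.sq]
          · exact hbox2 w hw
        · obtain ⟨w, hr, hw⟩ := f2
          refine ⟨w, ?_, ?_⟩
          · have : dtgt ((0, 0, true) : Edg) = (0, 0) := by simp
            rw [this]
            have hadj : DAdj (G \ {((0, 0, true) : Edg), ((1, 0, false) : Edg)}) (0, 0) (0, 1) :=
              ⟨(0, 1, true), ⟨g2, by simp⟩, Or.inl ⟨by simp, by simp⟩⟩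
            refine hadj.reach.trans (hr.mono ?_)
            rintro x ⟨hx1, hx2⟩
            refine ⟨hx1, fun hx3 => hx2 ?_⟩
            rcases hx3 with rfl | rfl <;> simp [Pool.Agent.H988R4.sq]
          · exact hbox2 w hw
  · right
    have eF : ((1, 0, false) : Edg) ∉ F := fun h => Set.disjoint_left.1 hFG h g1
    have hbox : ∀ w : Vtx, (n:ℤ) ≤ |w.1| + |w.2| →
        w.1 ≤ 1 - (m:ℤ) - 1 ∨ 1 + (m:ℤ) ≤ w.1 ∨ w.2 ≤ -(m:ℤ) - 1 ∨ (m:ℤ) ≤ w.2 := by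
      intro w hw
      rcases abs_cases w.1 with ⟨h1, h2⟩ | ⟨h1, h2⟩ <;>
        rcases abs_cases w.2 with ⟨h3, h4⟩ | ⟨h3, h4⟩ <;> rw [h1, h3] at hw <;> omega
    have hbox' : ∀ w : Vtx, (n:ℤ) ≤ |w.1| + |w.2| →
        w.1 ≤ 1 - (m:ℤ) ∨ 1 + (m:ℤ) ≤ w.1 ∨ w.2 ≤ -(m:ℤ) ∨ (m:ℤ) ≤ w.2 := by
      intro w hw
      have := hbox w hw
      omega
    refine ⟨?_, ?_, ?_⟩
    · obtain ⟨w, hw, hr⟩ := far_bd (a := 1 - (m:ℤ)) (b := 1 + m) (c := -(m:ℤ)) (d := m)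
        (x := (0, 0)) ⟨⟨by simp only; omega, by simp only; omega⟩, by simp only; omega,
          by simp only; omega⟩ hbox' p1
      refine ⟨w, hw, ?_⟩
      have hadj : Adj ((insert ((0, 0, true) : Edg) F ∩ ↑(RE (1 - (m:ℤ)) (1 + m) (-(m:ℤ)) m)) \
          {((1, 0, false) : Edg)}) (1, 0) (0, 0) := by
        refine ⟨(0, 0, true), ⟨⟨Set.mem_insert _ _, ?_⟩, by simp⟩, Or.inr ⟨by simp, by simp⟩⟩
        simp only [Finset.mem_coe, mem_RE_true]; omega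
      have : src ((1, 0, false) : Edg) = (1, 0) := by simp
      rw [this]
      refine hadj.reach.trans (hr.mono ?_)
      rintro x ⟨hx1, hx2⟩
      exact ⟨⟨Set.mem_insert_of_mem _ hx1, hx2⟩, fun hx3 => eF (hx3 ▸ hx1)⟩
    · obtain ⟨w, hw, hr⟩ := far_bd (a := 1 - (m:ℤ)) (b := 1 + m) (c := -(m:ℤ)) (d := m)
        (x := (1, 1)) ⟨⟨by simp only; omega, by simp only; omega⟩, by simp only; omega,
          by simp only; omega⟩ hbox' p2
      refine ⟨w, hw, ?_⟩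
      have : tgt ((1, 0, false) : Edg) = (1, 1) := by simp
      rw [this]
      refine hr.mono ?_
      rintro x ⟨hx1, hx2⟩
      exact ⟨⟨Set.mem_insert_of_mem _ hx1, hx2⟩, fun hx3 => eF (hx3 ▸ hx1)⟩
    · apply sep_primal (H := G \ {((0, 0, true) : Edg), ((1, 0, false) : Edg)})
      · simp only [mem_RE_false]; omega
      · rw [Set.disjoint_left]
        rintro x hx ⟨hx1, hx2⟩
        rcases hx with rfl | hx
        · exact hx2 (by simp)
        · exact Set.disjoint_left.1 hFG hx hx1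
      · rintro ⟨-, h⟩; exact h (by simp)
      · have e1 : dsrc ((1, 0, false) : Edg) = (0, 0) := by simp
        rw [e1]
        rcases hd2 with ⟨g2, f2⟩ | ⟨g2, f2⟩
        · obtain ⟨w, hr, hw⟩ := f2
          refine ⟨w, ?_, hbox w hw⟩
          have hadj : DAdj (G \ {((0, 0, true) : Edg), ((1, 0, false) : Edg)}) (0, 0) (-1, 0) :=
            ⟨(0, 0, false), ⟨g2, by simp⟩, Or.inr ⟨by simp, by simp⟩⟩
          refine hadj.reach.trans (hr.mono ?_)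
          rintro x ⟨hx1, hx2⟩
          refine ⟨hx1, fun hx3 => hx2 ?_⟩
          rcases hx3 with rfl | rfl <;> simp [Pool.Agent.H988R4.sq]
        · obtain ⟨w, hr, hw⟩ := f2
          refine ⟨w, ?_, hbox w hw⟩
          have hadj : DAdj (G \ {((0, 0, true) : Edg), ((1, 0, false) : Edg)}) (0, 0) (0, 1) :=
            ⟨(0, 1, true), ⟨g2, by simp⟩, Or.inl ⟨by simp, by simp⟩⟩
          refine hadj.reach.trans (hr.mono ?_)
          rintro x ⟨hx1, hx2⟩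
          refine ⟨hx1, fun hx3 => hx2 ?_⟩
          rcases hx3 with rfl | rfl <;> simp [Pool.Agent.H988R4.sq]
      · obtain ⟨w, hr, hw⟩ := f1
        refine ⟨w, ?_, hbox w hw⟩
        have : dtgt ((1, 0, false) : Edg) = (1, 0) := by simp
        rw [this]
        refine hr.mono ?_
        rintro x ⟨hx1, hx2⟩
        refine ⟨hx1, fun hx3 => hx2 ?_⟩
        rcases hx3 with rfl | rfl <;> simp [Pool.Agent.H988R4.sq]

theorem RE_sub_SS {n m : ℕ} (hmn : 2 * m + 4 ≤ n) {x0 : ℤ} (hx0 : 0 ≤ x0 ∧ x0 ≤ 1) :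
    RE (x0 - m) (x0 + m) (0 - m) (0 + m) ⊆ Pool.Agent.H974R3.SS n n := by
  have hmn' : 2 * (m:ℤ) + 4 ≤ n := by exact_mod_cast hmn
  rintro ⟨x, y, _ | _⟩ h
  · rw [mem_RE_false] at h
    refine mem_SS.2 ⟨(x + y + n).toNat, (x - y - 1 + n).toNat, by omega, by omega, ?_⟩
    unfold ed
    rw [if_neg (by omega)]
    refine Prod.ext ?_ (Prod.ext ?_ rfl)
    · simp only; omega
    · simp only; omega
  · rw [mem_RE_true] at h
    refine mem_SS.2 ⟨(x + y + n).toNat, (x - y + n).toNat, by omega, by omega, ?_⟩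
    unfold ed
    rw [if_pos (by omega)]
    refine Prod.ext ?_ (Prod.ext ?_ rfl)
    · simp only; omega
    · simp only; omega

theorem p4val_le_a4 {n m : ℕ} (hm : 1 ≤ m) (hmn : 2 * m + 4 ≤ n) :
    p4val n ≤ 4 * a4 (1/2) m := by
  have hm' : (1:ℤ) ≤ m := by exact_mod_cast hm
  have h1 := p4val_le_box n n (by omega) le_rfl
  set S := Pool.Agent.H974R3.SS n n with hS
  have s0 : H12S.blk (H973N.bp ((0, 0, true) : Edg)) m ⊆ S := by
    have := RE_sub_SS hmn (x0 := 0) ⟨le_rfl, by norm_num⟩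
    exact this
  have s1 : H12S.blk (H973N.bp ((1, 0, false) : Edg)) m ⊆ S := by
    have := RE_sub_SS hmn (x0 := 1) ⟨by norm_num, le_rfl⟩
    exact this
  have m0 : ((0, 0, true) : Edg) ∈ S := by
    apply s0
    show ((0, 0, true) : Edg) ∈ RE (0 - (m:ℤ)) (0 + m) (0 - m) (0 + m)
    rw [mem_RE_true]; omega
  have m1 : ((1, 0, false) : Edg) ∈ S := by
    apply s1
    show ((1, 0, false) : Edg) ∈ RE (1 - (m:ℤ)) (1 + m) (0 - m) (0 + m)
    rw [mem_RE_false]; omega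
  have h2 : Pr (fun _ => 1/2) S (fun F => V4 n (↑F : Set Edg) (↑(S \ F) : Set Edg)) ≤
      Pr (fun _ => 1/2) S (fun F => H973N.L4 m (0, 0, true) (↑(insert (1, 0, false) F) : Set Edg)) +
      Pr (fun _ => 1/2) S (fun F => H973N.L4 m (1, 0, false) (↑(insert (0, 0, true) F) : Set Edg)) := by
    refine le_trans ?_ (Pr_or_le C8_ok S _ _)
    apply Pr_mono C8_ok
    intro F _ hF
    have hd : Disjoint (↑F : Set Edg) (↑(S \ F) : Set Edg) := by
      rw [Finset.disjoint_coe]; exact Finset.disjoint_sdiff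
    rcases V4_cases hm hmn hd hF with h | h
    · left
      rw [Finset.coe_insert]
      simpa [H973N.L4] using h
    · right
      rw [Finset.coe_insert]
      simpa [H973N.L4] using h
  have h3 := Pr_insert_le m1 (fun F => H973N.L4 m (0, 0, true) (↑F : Set Edg))
  have h4 := Pr_insert_le m0 (fun F => H973N.L4 m (1, 0, false) (↑F : Set Edg))
  have h5 := H973N.pr_L4 (q := 1/2) (by norm_num) (by norm_num) (e := (0, 0, true)) s0
  have h6 := H973N.pr_L4 (q := 1/2) (by norm_num) (by norm_num) (e := (1, 0, false)) s1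
  unfold PQ at h5 h6
  linarith

/-- LOWER BOUND for the four-arm probability. -/
theorem a4_low : ∃ c : ℝ, 0 < c ∧ ∀ k : ℕ, 1 ≤ k → c * (k:ℝ) ^ (-(5 / 4) : ℝ) ≤ a4 (1/2) k := by
  obtain ⟨c, C, hc, h⟩ := p4val_bounds
  refine ⟨c / 4 * (13:ℝ) ^ (-(5 / 4) : ℝ), by positivity, ?_⟩
  intro k hk
  have h1 := p4val_le_a4 (n := 2 * k + 4) hk le_rfl
  have h2 := (h (2 * k + 4) (by omega)).1
  have hk' : (1:ℝ) ≤ k := by exact_mod_cast hk
  have h3 : (13 * (k:ℝ)) ^ (-(5 / 4) : ℝ) ≤ (2 * ((2 * k + 4 : ℕ) : ℝ) + 1) ^ (-(5 / 4) : ℝ) := by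
    apply Real.rpow_le_rpow_of_nonpos (by positivity) _ (by norm_num)
    push_cast; linarith
  rw [Real.mul_rpow (by norm_num) (by positivity)] at h3
  have h4 : c * ((13:ℝ) ^ (-(5 / 4) : ℝ) * (k:ℝ) ^ (-(5 / 4) : ℝ)) ≤
      c * (2 * ((2 * k + 4 : ℕ) : ℝ) + 1) ^ (-(5 / 4) : ℝ) := mul_le_mul_of_nonneg_left h3 hc.le
  linarith

end Pool.Agent.H988R5
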