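import Pool.Agent.H988R5.Defs

/-!
# Transfer with the opposite translation (task C0, helper207)
-/

namespace Pool.Agent.H988R5
open Equiv Finset Pool.Agent.H974R3 Pool.Agent.H988R3 Pool.Agent.H988R4
open H974 hiding SS
open H12S (Cn e0)

theorem C0_flux_exists {L : ℕ} (σ τ : Pat L) (h : Vx L → Bool) (hh : Alt σ.1 τ.1 h) :
    ∃ φ : Vx L → ℤ, Flux σ φ ∧ Flux τ φ ∧ φ none = -1 ∧
      (∀ v, φ v = -1 → Conn σ.1 τ.1 v none ∧ h v = h none) := by
  classical
  have hnone : Conn σ.1 τ.1 none none := fun g _ _ => rfl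
  have hflip : ∀ a b : Bool, ((if (!a) = b then (-1 : ℤ) else 1)) = -(if a = b then -1 else 1) := by
    intro a b
    cases a <;> cases b <;> simp
  refine ⟨fun v => if Conn σ.1 τ.1 v none then (if h v = h none then -1 else 1) else 0,
    ?_, ?_, ?_, ?_⟩
  · intro v
    show (if Conn σ.1 τ.1 (σ.1 v) none then (if h (σ.1 v) = h none then (-1 : ℤ) else 1) else 0) =
      -(if Conn σ.1 τ.1 v none then (if h v = h none then -1 else 1) else 0)
    by_cases hc : Conn σ.1 τ.1 v none
    · rw [if_pos hc, if_pos ((T3_conn_left σ τ v).2 hc), hh.1 v]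
      exact hflip _ _
    · rw [if_neg hc, if_neg (fun h' => hc ((T3_conn_left σ τ v).1 h'))]
      rfl
  · intro v
    show (if Conn σ.1 τ.1 (τ.1 v) none then (if h (τ.1 v) = h none then (-1 : ℤ) else 1) else 0) =
      -(if Conn σ.1 τ.1 v none then (if h v = h none then -1 else 1) else 0)
    by_cases hc : Conn σ.1 τ.1 v none
    · rw [if_pos hc, if_pos ((T3_conn_right σ τ v).2 hc), hh.2 v]
      exact hflip _ _
    · rw [if_neg hc, if_neg (fun h' => hc ((T3_conn_right σ τ v).1 h'))]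
      rfl
  · show (if Conn σ.1 τ.1 none none then (if h none = h none then (-1 : ℤ) else 1) else 0) = -1
    rw [if_pos hnone, if_pos rfl]
  · intro v hv
    have hv' : (if Conn σ.1 τ.1 v none then (if h v = h none then (-1 : ℤ) else 1) else 0) = -1 :=
      hv
    by_cases hc : Conn σ.1 τ.1 v none
    · rw [if_pos hc] at hv'
      refine ⟨hc, ?_⟩
      by_contra he
      rw [if_neg he] at hv'
      exact absurd hv' (by norm_num)
    · rw [if_neg hc] at hv'
      exact absurd hv' (by norm_num)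

/-- the key computation with the opposite translation -/
theorem C0_key {m M : ℕ} (c : ℕ → Fin (m + 1) → Bool) (σ τ : Pat (m + 1)) (j : ℤ)
    (h : CR m (2 * M) c (j, M) (j + 1 + ((m : ℤ) + 1), M)) (g : Vx (m + 1) → Bool)
    (hg : Alt (rows m c M σ).1 (rows m (upr M c) M τ).1 g) :
    Conn (rows m c M σ).1 (rows m (upr M c) M τ).1 (some (izx m j)) none ∧
      g (some (izx m j)) = g none := by
  obtain ⟨φ, h1, h2, h3, h4⟩ := C0_flux_exists _ _ g hg
  obtain ⟨f, f1, f2, f3⟩ := flux_cover c σ τ φ h1 h2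
  apply h4
  have e1 := T3_CR_eq f1 h
  have e2 := f2 (j + 1) M (by omega)
  have e3 := f3 j
  rw [h3] at e2
  rw [e2, e3] at e1
  linarith

theorem P4_of_CR_neg {m M : ℕ} (c : ℕ → Fin (m + 1) → Bool) (σ τ : Pat (m + 1)) (j : ℤ)
    (h : CR m (2 * M) c (j, M) (j + 1 + ((m : ℤ) + 1), M))
    (h' : CR m (2 * M) c (j + 1, M) (j + 2 + ((m : ℤ) + 1), M)) :
    P4 (izx m j) (izx m (j + 1)) (rows m c M σ) (rows m (upr M c) M τ) := by
  obtain ⟨g, hg⟩ := exists_alt (rows m c M σ).1 (rows m (upr M c) M τ).1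
    (rows m c M σ).2.inv (rows m c M σ).2.nofix (rows m (upr M c) M τ).2.inv
    (rows m (upr M c) M τ).2.nofix
  have h'' : CR m (2 * M) c (j + 1, M) (j + 1 + 1 + ((m : ℤ) + 1), M) := by
    have e : j + 1 + 1 = j + 2 := by ring
    rw [e]
    exact h'
  refine ⟨(C0_key c σ τ j h g hg).1, fun g' hg' => ?_⟩
  have a1 := (C0_key c σ τ j h g' hg').2
  have a2 := (C0_key c σ τ (j + 1) h'' g' hg').2
  rw [a1, a2]

end Pool.Agent.H988R5
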