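import Pool.Agent.H988R5.Defs
import Pool.Agent.H988R5.CRNeg
import Pool.Agent.H988R5.Walk

/-!
# Closing the four arms on the odd cylinder: corner bookkeeping (task C1, helper751)
-/

namespace Pool.Agent.H988R5
open Equiv Finset Pool.Agent.H974R3 Pool.Agent.H988R3 Pool.Agent.H988R4
open H974 hiding SS
open H12S (Cn e0)

theorem C1_symm {m N : ℕ} {c : ℕ → Fin (m + 1) → Bool} {a b : ℤ × ℕ} (h : CR m N c a b) :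
    CR m N c b a := Relation.EqvGen.symm _ _ h

theorem C1_trans {m N : ℕ} {c : ℕ → Fin (m + 1) → Bool} {a b d : ℤ × ℕ} (h : CR m N c a b)
    (h' : CR m N c b d) : CR m N c a d := Relation.EqvGen.trans _ _ _ h h'

/-- abstract corner bookkeeping: `a ~ L`, `b ~ R`, `x, y ~ M` -/
theorem C1_aux {n M : ℕ} (c : ℕ → Fin (2 * n + 1) → Bool) (σ τ : Pat (2 * n + 1))
    (a b x y p p' q q' : ℤ × ℕ)
    (ha : CR (2 * n) (2 * M) c a ((n:ℤ), M)) (hb : CR (2 * n) (2 * M) c b ((n:ℤ) + 2, M))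
    (hx : CR (2 * n) (2 * M) c x ((n:ℤ) + 1, M)) (hy : CR (2 * n) (2 * M) c y ((n:ℤ) + 1, M))
    (hc : (((p = a ∧ p' = b) ∨ (p = b ∧ p' = a)) ∧ ((q = x ∧ q' = y) ∨ (q = y ∧ q' = x))) ∨
      (((q = a ∧ q' = b) ∨ (q = b ∧ q' = a)) ∧ ((p = x ∧ p' = y) ∨ (p = y ∧ p' = x))))
    (h1 : CR (2 * n) (2 * M) c q (sh n p)) (h2 : CR (2 * n) (2 * M) c p' (sh n q')) :
    P4 (izx (2 * n) n) (izx (2 * n) (n + 1)) (rows (2 * n) c M σ)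
      (rows (2 * n) (upr M c) M τ) := by
  have e0 : ((n:ℤ) + (((2 * n : ℕ) : ℤ) + 1), M) = sh n ((n:ℤ), M) := by
    unfold sh; push_cast; rfl
  have e1 : ((n:ℤ) + 1 + (((2 * n : ℕ) : ℤ) + 1), M) = sh n ((n:ℤ) + 1, M) := by
    unfold sh; push_cast; rfl
  have e2 : ((n:ℤ) + 2 + (((2 * n : ℕ) : ℤ) + 1), M) = sh n ((n:ℤ) + 2, M) := by
    unfold sh; push_cast; rfl
  have plus : CR (2 * n) (2 * M) c ((n:ℤ) + 1, M) (sh n ((n:ℤ), M)) →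
      CR (2 * n) (2 * M) c ((n:ℤ) + 2, M) (sh n ((n:ℤ) + 1, M)) →
      P4 (izx (2 * n) n) (izx (2 * n) (n + 1)) (rows (2 * n) c M σ)
      (rows (2 * n) (upr M c) M τ) := by
    intro g1 g2
    refine P4_of_CR (m := 2 * n) c σ τ (n:ℤ) ?_ ?_
    · rw [e0]; exact g1
    · rw [e1]; exact g2
  have minus : CR (2 * n) (2 * M) c ((n:ℤ), M) (sh n ((n:ℤ) + 1, M)) →
      CR (2 * n) (2 * M) c ((n:ℤ) + 1, M) (sh n ((n:ℤ) + 2, M)) →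
      P4 (izx (2 * n) n) (izx (2 * n) (n + 1)) (rows (2 * n) c M σ)
      (rows (2 * n) (upr M c) M τ) := by
    intro g1 g2
    refine P4_of_CR_neg (m := 2 * n) c σ τ (n:ℤ) ?_ ?_
    · rw [e1]; exact g1
    · rw [e2]; exact g2
  have key : ∀ {u v u0 v0 : ℤ × ℕ}, CR (2 * n) (2 * M) c u u0 → CR (2 * n) (2 * M) c v v0 →
      CR (2 * n) (2 * M) c u (sh n v) → CR (2 * n) (2 * M) c u0 (sh n v0) := by
    intro u v u0 v0 k1 k2 k3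
    exact C1_trans (C1_symm k1) (C1_trans k3 (CR_sh k2))
  rcases hc with ⟨hp, hq⟩ | ⟨hq, hp⟩
  · have hq1 : CR (2 * n) (2 * M) c q ((n:ℤ) + 1, M) := by
      rcases hq with ⟨rfl, rfl⟩ | ⟨rfl, rfl⟩ <;> assumption
    have hq2 : CR (2 * n) (2 * M) c q' ((n:ℤ) + 1, M) := by
      rcases hq with ⟨rfl, rfl⟩ | ⟨rfl, rfl⟩ <;> assumption
    rcases hp with ⟨rfl, rfl⟩ | ⟨rfl, rfl⟩
    · exact plus (key hq1 ha h1) (key hb hq2 h2)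
    · exact minus (key ha hq2 h2) (key hq1 hb h1)
  · have hp1 : CR (2 * n) (2 * M) c p ((n:ℤ) + 1, M) := by
      rcases hp with ⟨rfl, rfl⟩ | ⟨rfl, rfl⟩ <;> assumption
    have hp2 : CR (2 * n) (2 * M) c p' ((n:ℤ) + 1, M) := by
      rcases hp with ⟨rfl, rfl⟩ | ⟨rfl, rfl⟩ <;> assumption
    rcases hq with ⟨rfl, rfl⟩ | ⟨rfl, rfl⟩
    · exact minus (key ha hp1 h1) (key hp2 hb h2)
    · exact plus (key hp2 ha h2) (key hb hp1 h1)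

theorem P4_of_corners {n M : ℕ} (hM : 1 ≤ M) (c : ℕ → Fin (2 * n + 1) → Bool) (r : ℕ)
    (hr : (r = M ∧ c r (izx (2 * n) n) = true ∧ c r (izx (2 * n) (n + 1)) = true) ∨
      (r + 1 = M ∧ c r (izx (2 * n) n) = false ∧ c r (izx (2 * n) (n + 1)) = false))
    (p p' q q' : ℤ × ℕ)
    (hc : (((p = ((n:ℤ), r) ∧ p' = ((n:ℤ) + 1, r + 1)) ∨ (p = ((n:ℤ) + 1, r + 1) ∧ p' = ((n:ℤ), r))) ∧
        ((q = ((n:ℤ) + 1, r) ∧ q' = ((n:ℤ), r + 1)) ∨ (q = ((n:ℤ), r + 1) ∧ q' = ((n:ℤ) + 1, r)))) ∨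
      (((q = ((n:ℤ), r) ∧ q' = ((n:ℤ) + 1, r + 1)) ∨ (q = ((n:ℤ) + 1, r + 1) ∧ q' = ((n:ℤ), r))) ∧
        ((p = ((n:ℤ) + 1, r) ∧ p' = ((n:ℤ), r + 1)) ∨ (p = ((n:ℤ), r + 1) ∧ p' = ((n:ℤ) + 1, r)))))
    (h1 : CR (2 * n) (2 * M) c q (sh n p)) (h2 : CR (2 * n) (2 * M) c p' (sh n q'))
    (σ τ : Pat (2 * n + 1)) :
    P4 (izx (2 * n) n) (izx (2 * n) (n + 1)) (rows (2 * n) c M σ)
      (rows (2 * n) (upr M c) M τ) := by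
  rcases hr with ⟨rfl, he, hg⟩ | ⟨rfl, he, hg⟩
  · have l1 : CR (2 * n) (2 * r) c ((n:ℤ), r + 1) ((n:ℤ) + 1, r) :=
      Relation.EqvGen.rel _ _ ⟨(n:ℤ), r, by omega, Or.inr ⟨he, rfl, rfl⟩⟩
    have l2 : CR (2 * n) (2 * r) c ((n:ℤ) + 1, r + 1) ((n:ℤ) + 2, r) :=
      Relation.EqvGen.rel _ _ ⟨(n:ℤ) + 1, r, by omega, Or.inr ⟨hg, rfl, by
        rw [show (n:ℤ) + 2 = (n:ℤ) + 1 + 1 by ring]⟩⟩
    exact C1_aux c σ τ ((n:ℤ), r) ((n:ℤ) + 1, r + 1) ((n:ℤ) + 1, r) ((n:ℤ), r + 1) p p' q q'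
      (Relation.EqvGen.refl _) l2 (Relation.EqvGen.refl _) l1 hc h1 h2
  · have l1 : CR (2 * n) (2 * (r + 1)) c ((n:ℤ), r) ((n:ℤ) + 1, r + 1) :=
      Relation.EqvGen.rel _ _ ⟨(n:ℤ), r, by omega, Or.inl ⟨he, rfl, rfl⟩⟩
    have l2 : CR (2 * n) (2 * (r + 1)) c ((n:ℤ) + 1, r) ((n:ℤ) + 2, r + 1) :=
      Relation.EqvGen.rel _ _ ⟨(n:ℤ) + 1, r, by omega, Or.inl ⟨hg, rfl, by
        rw [show (n:ℤ) + 2 = (n:ℤ) + 1 + 1 by ring]⟩⟩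
    exact C1_aux c σ τ ((n:ℤ), r + 1) ((n:ℤ) + 1, r) ((n:ℤ), r) ((n:ℤ) + 1, r + 1) p p' q q'
      (Relation.EqvGen.refl _) l2 l1 (Relation.EqvGen.refl _)
      (hc.symm.imp (fun h => ⟨h.2.symm, h.1⟩) (fun h => ⟨h.2.symm, h.1⟩)) h1 h2

end Pool.Agent.H988R5
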