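import Pool.Agent.H988R4.Measure
import Pool.Agent.H988R4.FromCR
import Pool.Agent.H12R2.Sep.Defs

/-!
# Closing the four arms on the odd cylinder: definitions

Plus domain: box `[-b,b]²` with four straight tubes of half-width `w` and length up to distance
`N`.  `Plus` = the central edge `e` is pivotal for the bottom-top connection in the vertical bar
(everything else closed) and in the horizontal bar (everything else open).
-/

namespace Pool.Agent.H988R5
open Equiv Finset Pool.Agent.H974R3 Pool.Agent.H988R3 Pool.Agent.H988R4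
open H974 hiding SS
open H12S (Cn e0)

/-- the box with the lower / upper / right / left tube -/
noncomputable def DS (b w N : ℕ) : Finset Edg := boxE b ∪ RE (-w) w (-N) (-b)
noncomputable def DN (b w N : ℕ) : Finset Edg := boxE b ∪ RE (-w) w b N
noncomputable def DE (b w N : ℕ) : Finset Edg := boxE b ∪ RE b N (-w) w
noncomputable def DW (b w N : ℕ) : Finset Edg := boxE b ∪ RE (-N) (-b) (-w) w
/-- vertical bar and horizontal bar -/
noncomputable def XV (b w N : ℕ) : Finset Edg := boxE b ∪ RE (-w) w (-N) N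
noncomputable def XH (b w N : ℕ) : Finset Edg := boxE b ∪ RE (-N) N (-w) w

def botV (N : ℕ) : Set Vtx := {v | v.2 = -(N:ℤ)}
def topV (N : ℕ) : Set Vtx := {v | v.2 = (N:ℤ)}

/-- the plus event -/
def Plus (b w N : ℕ) (e : Edg) (F : Set Edg) : Prop :=
  Cn (botV N) (topV N) (insert e (F ∩ ↑(XV b w N))) ∧
    ¬ Cn (botV N) (topV N) (((F ∩ ↑(XH b w N)) ∪ ↑(boxE N \ XH b w N)) \ {e})

def ArmS (b w N : ℕ) (e : Edg) (p : Vtx) (F : Set Edg) : Prop :=
  ∃ u : Vtx, u.2 = -(N:ℤ) ∧ Reach ((F ∩ ↑(DS b w N)) \ {e}) p u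
def ArmN (b w N : ℕ) (e : Edg) (p : Vtx) (F : Set Edg) : Prop :=
  ∃ u : Vtx, u.2 = (N:ℤ) ∧ Reach ((F ∩ ↑(DN b w N)) \ {e}) p u
def ArmE (b w N : ℕ) (e : Edg) (q : Vtx) (F : Set Edg) : Prop :=
  ∃ f : Vtx, (N:ℤ) ≤ f.1 ∧ DReach ((↑(DE b w N) \ F) \ {e}) q f
def ArmW (b w N : ℕ) (e : Edg) (q : Vtx) (F : Set Edg) : Prop :=
  ∃ f : Vtx, f.1 ≤ -(N:ℤ) - 1 ∧ DReach ((↑(DW b w N) \ F) \ {e}) q f

/-- `p, p'` are the ends of `e`, `q, q'` the faces beside `e` -/
def Ends (e : Edg) (p p' q q' : Vtx) : Prop :=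
  ((p = src e ∧ p' = tgt e) ∨ (p = tgt e ∧ p' = src e)) ∧
    ((q = dsrc e ∧ q' = dtgt e) ∨ (q = dtgt e ∧ q' = dsrc e))

/-- plaquettes of the cylinder: (level, strand) -/
abbrev Pq (n : ℕ) := ℕ × Fin (2 * n + 1)

def LamP (n M : ℕ) : Finset (Pq n) := Finset.range (2 * M) ×ˢ Finset.univ

/-- states of the rows: `true` iff the plaquette belongs to `C` -/
def st {n : ℕ} (C : Finset (Pq n)) (r : ℕ) (j : Fin (2 * n + 1)) : Bool := decide ((r, j) ∈ C)

/-- the plaquette of an edge; the vertex `(0,0)` is the face `(n, ρ)` -/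
def pE (n : ℕ) (ρ : ℤ) (e : Edg) : Pq n :=
  ((e.1 - e.2.1 + ρ - (if e.2.2 then 0 else 1)).toNat, izx (2 * n) (e.1 + e.2.1 + n))

/-- the face of the universal cover at a vertex / dual vertex of `ℤ²` -/
def fV (n : ℕ) (ρ : ℤ) (v : Vtx) : ℤ × ℕ := (v.1 + v.2 + n, (v.1 - v.2 + ρ).toNat)
def fD (n : ℕ) (ρ : ℤ) (v : Vtx) : ℤ × ℕ := (v.1 + v.2 + n + 1, (v.1 - v.2 + ρ).toNat)

/-- translation of faces by the circumference -/
def sh (n : ℕ) (a : ℤ × ℕ) : ℤ × ℕ := (a.1 + (2 * (n:ℤ) + 1), a.2)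

/-- general pull back of a configuration: `e` is open iff (`π e ∈ C` iff `s e`) -/
def pullF {E E' : Type*} [DecidableEq E'] (U : Finset E) (π : E → E') (s : E → Bool)
    (C : Finset E') : Finset E := U.filter (fun e => (π e ∈ C ↔ s e = true))

/-- openness of the edges of `U` read off from plaquette states -/
def pull (n : ℕ) (ρ : ℤ) (U : Finset Edg) (C : Finset (Pq n)) : Finset Edg :=
  pullF U (pE n ρ) (fun e => !e.2.2) C

/-- sizes -/
structure Sz (b w n N : ℕ) : Prop where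
  w1 : 1 ≤ w
  wb : w ≤ b
  b2 : 2 ≤ b
  bn : 2 * b + 2 * w + 4 ≤ n
  hN : N = n + w + 2

/-- all levels used are between `0` and `2M` -/
structure Lv (b w n N M : ℕ) (ρ : ℤ) : Prop extends Sz b w n N where
  lo : (N:ℤ) + b + 4 ≤ ρ
  hi : ρ + N + b + 4 ≤ 2 * M

end Pool.Agent.H988R5
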