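import Pool.Agent.H988R5.Defs

/-!
# Closing the four arms on the odd cylinder: statements.  DO NOT import in final proofs.
-/

namespace Pool.Agent.H988R5
open Equiv Finset Pool.Agent.H974R3 Pool.Agent.H988R3 Pool.Agent.H988R4
open H974 hiding SS
open H12S (Cn e0)

/-! ## C0 (file CRNeg.lean) -/

theorem P4_of_CR_neg {m M : ℕ} (c : ℕ → Fin (m + 1) → Bool) (σ τ : Pat (m + 1)) (j : ℤ)
    (h : CR m (2 * M) c (j, M) (j + 1 + ((m : ℤ) + 1), M))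
    (h' : CR m (2 * M) c (j + 1, M) (j + 2 + ((m : ℤ) + 1), M)) :
    P4 (izx m j) (izx m (j + 1)) (rows m c M σ) (rows m (upr M c) M τ) := sorry

/-! ## C1 (file Corners.lean, imports CRNeg, Walk) -/

theorem P4_of_corners {n M : ℕ} (hM : 1 ≤ M) (c : ℕ → Fin (2 * n + 1) → Bool) (r : ℕ)
    (hr : (r = M ∧ c r (izx (2 * n) n) = true ∧ c r (izx (2 * n) (n + 1)) = true) ∨
      (r + 1 = M ∧ c r (izx (2 * n) n) = false ∧ c r (izx (2 * n) (n + 1)) = false))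
    (p p' q q' : ℤ × ℕ)
    (hc : (((p = ((n:ℤ), r) ∧ p' = ((n:ℤ) + 1, r + 1)) ∨ (p = ((n:ℤ) + 1, r + 1) ∧ p' = ((n:ℤ), r))) ∧
        ((q = ((n:ℤ) + 1, r) ∧ q' = ((n:ℤ), r + 1)) ∨ (q = ((n:ℤ), r + 1) ∧ q' = ((n:ℤ) + 1, r)))) ∨
      (((q = ((n:ℤ), r) ∧ q' = ((n:ℤ) + 1, r + 1)) ∨ (q = ((n:ℤ) + 1, r + 1) ∧ q' = ((n:ℤ), r))) ∧
        ((p = ((n:ℤ) + 1, r) ∧ p' = ((n:ℤ), r + 1)) ∨ (p = ((n:ℤ), r + 1) ∧ p' = ((n:ℤ) + 1, r)))))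
    (h1 : CR (2 * n) (2 * M) c q (sh n p)) (h2 : CR (2 * n) (2 * M) c p' (sh n q'))
    (σ τ : Pat (2 * n + 1)) :
    P4 (izx (2 * n) n) (izx (2 * n) (n + 1)) (rows (2 * n) c M σ)
      (rows (2 * n) (upr M c) M τ) := sorry

/-! ## C2 (file Walk.lean) -/

theorem CR_shift {m N : ℕ} {c : ℕ → Fin (m + 1) → Bool} {a a' : ℤ × ℕ} (h : CR m N c a a')
    (t : ℤ) : CR m N c (a.1 + t * ((m:ℤ) + 1), a.2) (a'.1 + t * ((m:ℤ) + 1), a'.2) := sorry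
theorem CR_sh {n N : ℕ} {c : ℕ → Fin (2 * n + 1) → Bool} {a a' : ℤ × ℕ}
    (h : CR (2 * n) N c a a') : CR (2 * n) N c (sh n a) (sh n a') := sorry

/-- an open edge links its end vertices -/
theorem link_open {n M : ℕ} {ρ : ℤ} {C : Finset (Pq n)} {U : Finset Edg} {e : Edg}
    (he : e ∈ pull n ρ U C) (h0 : 0 ≤ e.1 - e.2.1 + ρ - 1) (h1 : e.1 - e.2.1 + ρ < 2 * M) :
    CR (2 * n) (2 * M) (st C) (fV n ρ (src e)) (fV n ρ (tgt e)) := sorry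

/-- a closed edge links its two faces -/
theorem link_closed {n M : ℕ} {ρ : ℤ} {C : Finset (Pq n)} {U : Finset Edg} {e : Edg}
    (he : e ∈ U) (he' : e ∉ pull n ρ U C) (h0 : 0 ≤ e.1 - e.2.1 + ρ - 1)
    (h1 : e.1 - e.2.1 + ρ < 2 * M) :
    CR (2 * n) (2 * M) (st C) (fD n ρ (dsrc e)) (fD n ρ (dtgt e)) := sorry

theorem walk_reach {n N : ℕ} {c : ℕ → Fin (2 * n + 1) → Bool} {g : Vtx → ℤ × ℕ} {H : Set Edg}
    (hH : ∀ e ∈ H, CR (2 * n) N c (g (src e)) (g (tgt e))) {u v : Vtx} (h : Reach H u v) :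
    CR (2 * n) N c (g u) (g v) := sorry
theorem walk_dreach {n N : ℕ} {c : ℕ → Fin (2 * n + 1) → Bool} {g : Vtx → ℤ × ℕ} {H : Set Edg}
    (hH : ∀ e ∈ H, CR (2 * n) N c (g (dsrc e)) (g (dtgt e))) {u v : Vtx} (h : DReach H u v) :
    CR (2 * n) N c (g u) (g v) := sorry

/-! ## C3 (file Meet.lean, imports Walk) -/

/-- two primal paths crossing a rectangle in different directions meet -/
theorem paths_meet {G1 G2 : Set Edg} {a b c d : ℤ} (hab : a < b) (hcd : c < d)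
    (hH1 : ∀ x y, ((x, y, true) : Edg) ∈ G1 → a ≤ x → x < b → c ≤ y ∧ y ≤ d)
    (hV1 : ∀ x y, ((x, y, false) : Edg) ∈ G1 → a < x → x < b → c ≤ y ∧ y < d)
    (hV2 : ∀ x y, ((x, y, false) : Edg) ∈ G2 → c ≤ y → y < d → a ≤ x ∧ x ≤ b)
    (hH2 : ∀ x y, ((x, y, true) : Edg) ∈ G2 → c < y → y < d → a ≤ x ∧ x < b)
    {u v u' v' : Vtx} (h1 : Reach G1 u v) (hu : u.1 ≤ a) (hv : b ≤ v.1)
    (h2 : Reach G2 u' v') (hu' : u'.2 ≤ c) (hv' : d ≤ v'.2) : Reach (G1 ∪ G2) u u' := sorry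

theorem meet_SE {b w n N M : ℕ} {ρ : ℤ} (h : Lv b w n N M ρ) {U : Finset Edg}
    (hU : XV b w N ∪ XH b w N ⊆ U) {C : Finset (Pq n)} {e : Edg} {p q : Vtx}
    (hp : |p.1| ≤ 1 ∧ |p.2| ≤ 1) (hq : |q.1| ≤ 1 ∧ |q.2| ≤ 1)
    (h1 : ArmS b w N e p ↑(pull n ρ U C)) (h2 : ArmE b w N e q ↑(pull n ρ U C)) :
    CR (2 * n) (2 * M) (st C) (fD n ρ q) (sh n (fV n ρ p)) := sorry
theorem meet_NW {b w n N M : ℕ} {ρ : ℤ} (h : Lv b w n N M ρ) {U : Finset Edg}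
    (hU : XV b w N ∪ XH b w N ⊆ U) {C : Finset (Pq n)} {e : Edg} {p q : Vtx}
    (hp : |p.1| ≤ 1 ∧ |p.2| ≤ 1) (hq : |q.1| ≤ 1 ∧ |q.2| ≤ 1)
    (h1 : ArmN b w N e p ↑(pull n ρ U C)) (h2 : ArmW b w N e q ↑(pull n ρ U C)) :
    CR (2 * n) (2 * M) (st C) (fV n ρ p) (sh n (fD n ρ q)) := sorry

/-! ## C4 (file PlusArms.lean) -/

theorem plus_arms {b w N : ℕ} (hw : 1 ≤ w) (hwb : w ≤ b) (hbN : b < N) {e : Edg}
    (he : e ∈ boxE b) {F : Set Edg} (h : Plus b w N e F) :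
    ∃ p p' q q' : Vtx, Ends e p p' q q' ∧ ArmS b w N e p F ∧ ArmN b w N e p' F ∧
      ArmE b w N e q F ∧ ArmW b w N e q' F := sorry

/-! ## C5 (file Transport.lean) -/

theorem transport {E E' : Type*} [DecidableEq E] [DecidableEq E'] (Z : Finset E)
    (W : Fin 4 → Finset E) (Λ : Finset E') (π : E → E') (s : E → Bool) (d : Fin 4 → Bool)
    (A : Fin 4 → Finset E → Prop)
    (hZW : ∀ i, Disjoint Z (W i)) (hWW : ∀ i j, i ≠ j → Disjoint (W i) (W j))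
    (hπ : ∀ e ∈ Z ∪ Finset.univ.biUnion W, π e ∈ Λ)
    (hinj : ∀ i, Set.InjOn π ↑(Z ∪ W i))
    (hcol : ∀ i j e e', e ∈ W i → e' ∈ W j → i ≠ j → π e = π e' → (s e = s e' ↔ d i = d j))
    (hloc : ∀ i F, A i F ↔ A i (F ∩ (Z ∪ W i)))
    (hmon : ∀ i F F', F ⊆ Z ∪ W i → F' ⊆ Z ∪ W i → F ∩ Z = F' ∩ Z →
      (if d i then F ⊆ F' else F' ⊆ F) → A i F → A i F') :
    Pr (fun _ => 1/2) (Z ∪ Finset.univ.biUnion W) (fun F => ∀ i, A i F) ≤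
      Pr (fun _ => 1/2) Λ (fun C => ∀ i, A i (pullF (Z ∪ Finset.univ.biUnion W) π s C)) := sorry

/-! ## C6 (file Geo.lean) -/

theorem geo_mem {b w n N M : ℕ} {ρ : ℤ} (h : Lv b w n N M ρ) :
    ∀ e ∈ XV b w N ∪ XH b w N, pE n ρ e ∈ LamP n M := sorry
theorem geo_inj {b w n N M : ℕ} {ρ : ℤ} (h : Lv b w n N M ρ) :
    Set.InjOn (pE n ρ) ↑(DS b w N) ∧ Set.InjOn (pE n ρ) ↑(DN b w N) ∧
      Set.InjOn (pE n ρ) ↑(DE b w N) ∧ Set.InjOn (pE n ρ) ↑(DW b w N) := sorry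
/-- plaquettes used twice: types differ and exactly one of the tubes is vertical -/
theorem geo_col {b w n N M : ℕ} {ρ : ℤ} (h : Lv b w n N M ρ) {e e' : Edg}
    (he : e ∈ XV b w N ∪ XH b w N) (he' : e' ∈ XV b w N ∪ XH b w N) (hne : e ≠ e')
    (hπ : pE n ρ e = pE n ρ e') : e.2.2 ≠ e'.2.2 ∧
      ((e ∈ XV b w N \ boxE b ∧ e' ∈ XH b w N \ boxE b) ∨
        (e ∈ XH b w N \ boxE b ∧ e' ∈ XV b w N \ boxE b)) := sorry

/-! ## C7 (file States.lean) -/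

theorem Pr_le_p4val' (n M : ℕ) (hn : 1 ≤ n) (A : Finset (Pq n) → Prop)
    (hA : ∀ C, C ⊆ LamP n M → A C → ∀ σ τ : Pat (2 * n + 1),
      P4 (izx (2 * n) n) (izx (2 * n) (n + 1)) (rows (2 * n) (st C) M σ)
        (rows (2 * n) (upr M (st C)) M τ)) :
    Pr (fun _ => 1/2) (LamP n M) A ≤ p4val n := sorry

/-! ## C8 (file Final.lean) -/

/-- arms event with the states of `e` and of the neighbouring edge `g` prescribed; in the plane -/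
theorem arms_le {b w n N : ℕ} (h : Sz b w n N) (β : Bool) {p p' q q' : Vtx}
    (hE : Ends (e0 β) p p' q q') {S : Finset Edg} (hS : XV b w N ∪ XH b w N ⊆ S) :
    Pr (fun _ => 1/2) S (fun F => ArmS b w N (e0 β) p ↑F ∧ ArmN b w N (e0 β) p' ↑F ∧
      ArmE b w N (e0 β) q ↑F ∧ ArmW b w N (e0 β) q' ↑F) ≤ 4 * p4val n := sorry

theorem plus_le {b w n N : ℕ} (h : Sz b w n N) (β : Bool) {S : Finset Edg}
    (hS : XV b w N ∪ XH b w N ⊆ S) :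
    Pr (fun _ => 1/2) S (fun F => Plus b w N (e0 β) ↑F) ≤ 16 * p4val n := sorry

end Pool.Agent.H988R5
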